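import Pool.Agent.Lib.SBG9.StarB

/-!
# The basicness step: diagonal subsequence
-/

open Set Filter Topology

namespace SBG9

namespace BasicDAux

theorem step (a : ℕ → List Pc) (a0 : List Pc)
    (hyp : ∀ e ∈ inter a0, ∃ j n0 : ℕ, ∀ n ≥ n0, e ∈ inter (a n) ∧ ∃ z, roots (a n) e ⊆ Dj j z)
    (e : Xc) (A : {A : Set ℕ // A.Infinite}) : ∃ A' : {A : Set ℕ // A.Infinite}, A'.1 ⊆ A.1 ∧
      ∃ b : Code, e ∈ inter a0 → ∀ n ∈ A'.1, roots (a n) e ⊆ Dc b := by
  by_cases he : e ∈ inter a0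
  · obtain ⟨j, n0, h⟩ := hyp e he
    have hinf : (A.1 ∩ Ici n0).Infinite := by
      have h1 : (A.1 \ Iio n0).Infinite := A.2.sdiff (finite_Iio n0)
      refine h1.mono ?_
      rintro n ⟨h2, h3⟩
      exact ⟨h2, mem_Ici.2 (not_lt.1 fun h4 => h3 (mem_Iio.2 h4))⟩
    obtain ⟨A', hA', hsub, b, hb⟩ := code_bound j (A.1 ∩ Ici n0) hinf (fun n => roots (a n) e)
      fun n hn => (h n hn.2).2
    exact ⟨⟨A', hA'⟩, hsub.trans inter_subset_left, b, fun _ => hb⟩
  · exact ⟨A, Subset.rfl, (0, fun _ => false), fun h => absurd h he⟩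

theorem code_list (D : ℕ → Set Om) (h : ∀ n, ∃ b : Code, D n ⊆ Dc b) (N : ℕ) :
    ∃ b : Code, ∀ m < N, D m ⊆ Dc b := by
  induction N with
  | zero => exact ⟨(0, fun _ => false), fun m hm => absurd hm (Nat.not_lt_zero m)⟩
  | succ N ih =>
    obtain ⟨b, hb⟩ := ih
    obtain ⟨c, hc⟩ := h N
    obtain ⟨d, h1, h2⟩ := code_union b c
    refine ⟨d, fun m hm => ?_⟩
    rcases Nat.lt_succ_iff_lt_or_eq.1 hm with h3 | h3
    · exact (hb m h3).trans h1
    · rw [h3]; exact hc.trans h2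

end BasicDAux

/-- First step: a diagonal subsequence. For every `e ∈ inter a0` the sets `roots (a n) e`
(`n ≥ n0 e`) are contained in root sets of a fixed level, so every infinite set of indices has an
infinite subset on which they are contained in one root set (`code_bound`). Diagonalise along an
enumeration of the countable set `Xc` (`countable_Xc`); the finitely many exceptional `n` with
`e ∈ inter (a n)` are added to the root (`code_roots`, `code_union`). -/
theorem basic_diag (a : ℕ → List Pc) (a0 : List Pc)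
    (hyp : ∀ e ∈ inter a0, ∃ j n0 : ℕ, ∀ n ≥ n0, e ∈ inter (a n) ∧ ∃ z, roots (a n) e ⊆ Dj j z) :
    ∃ A : Set ℕ, A.Infinite ∧ ∃ ρ : Xc → Code, ∀ e ∈ inter a0, ∀ n ∈ A, e ∈ inter (a n) →
      roots (a n) e ⊆ Dc (ρ e) := by
  have hX : Countable Xc := countable_Xc
  have hne : Nonempty Xc := ⟨⊥⟩
  obtain ⟨en, hen⟩ := exists_surjective_nat Xc
  choose st hst1 bd hst2 using fun k => BasicDAux.step a a0 hyp (en k)
  let S : ℕ → {A : Set ℕ // A.Infinite} := fun k =>
    Nat.rec ⟨univ, infinite_univ⟩ (fun k A => st k A) k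
  have hS : ∀ k, S (k + 1) = st k (S k) := fun k => rfl
  have hanti : Antitone fun k => (S k).1 := antitone_nat_of_succ_le fun k => by
    change (S (k + 1)).1 ⊆ (S k).1
    rw [hS]
    exact hst1 k (S k)
  have hex : ∀ k m : ℕ, ∃ n, n ∈ (S k).1 ∧ m < n := fun k m => by
    obtain ⟨n, h1, h2⟩ := (S k).2.exists_gt m
    exact ⟨n, h1, h2⟩
  choose f hf1 hf2 using hex
  let ν : ℕ → ℕ := fun k => Nat.rec (f 0 0) (fun k m => f (k + 1) m) k
  have hν : ∀ k, ν (k + 1) = f (k + 1) (ν k) := fun k => rfl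
  have hmono : StrictMono ν := strictMono_nat_of_lt_succ fun k => by
    rw [hν]; exact hf2 _ _
  have hmem : ∀ k, ν k ∈ (S k).1 := fun k => by
    cases k with
    | zero => exact hf1 0 0
    | succ k => rw [hν]; exact hf1 (k + 1) (ν k)
  refine ⟨range ν, infinite_range_of_injective hmono.injective, ?_⟩
  have hcode : ∀ e : Xc, ∃ b : Code, e ∈ inter a0 → ∀ n ∈ range ν, e ∈ inter (a n) →
      roots (a n) e ⊆ Dc b := by
    intro e
    obtain ⟨k, rfl⟩ := hen e
    obtain ⟨b, hb⟩ := BasicDAux.code_list (fun m => roots (a (ν m)) (en k))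
      (fun m => code_roots _ _) (k + 1)
    obtain ⟨d, h1, h2⟩ := code_union b (bd k (S k))
    refine ⟨d, ?_⟩
    rintro he _ ⟨m, rfl⟩ -
    rcases Nat.lt_or_ge m (k + 1) with hm | hm
    · exact (hb m hm).trans h1
    · refine (hst2 k (S k) he (ν m) ?_).trans h2
      rw [← hS]
      exact hanti hm (hmem m)
  choose ρ hρ using hcode
  exact ⟨ρ, hρ⟩

end SBG9
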