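import Pool.Agent.Lib.SBG9.BasicD

/-!
# The basicness step
-/

open Set Filter Topology

namespace SBG9

namespace BasicLAux

/-- recursion with an invariant -/
theorem seq_rec {S : Type*} (Inv : ℕ → S → Prop) (Rel : ℕ → S → S → Prop) (s0 : S)
    (h0 : Inv 0 s0) (hs : ∀ k s, Inv k s → ∃ s', Inv (k + 1) s' ∧ Rel k s s') :
    ∃ f : ℕ → S, f 0 = s0 ∧ ∀ k, Inv k (f k) ∧ Rel k (f k) (f (k + 1)) := by
  classical
  choose! g hg using hs
  let f : ℕ → S := fun n => Nat.rec s0 (fun k s => g k s) n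
  have hf : ∀ k, Inv k (f k) := by
    intro k
    induction k with
    | zero => exact h0
    | succ k ih => exact (hg k (f k) ih).1
  exact ⟨f, rfl, fun k => ⟨hf k, (hg k (f k) (hf k)).2⟩⟩

/-- a positive set almost contained in the members of `M` meets every finite intersection -/
theorem pick {M : Set Pc} {R : Set Xc} (hpos : Pos R) (al : AlmostIn R M) (b : List Pc)
    (hb : ∀ s ∈ b, s ∈ M) (K : Finset Om) : ∃ e ∈ R, e ∈ inter b ∧ ∀ x ∈ K, x ∉ e := by
  classical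
  have key : ∀ b : List Pc, (∀ s ∈ b, s ∈ M) →
      ∃ K : Finset Om, ∀ e ∈ R, (∀ x ∈ K, x ∉ e) → e ∈ inter b := by
    intro b
    induction b with
    | nil => exact fun _ => ⟨∅, fun e _ _ s hs => absurd hs (List.not_mem_nil)⟩
    | cons s b ih =>
      intro h
      obtain ⟨K1, h1⟩ := ih (fun t ht => h t (List.mem_cons_of_mem _ ht))
      obtain ⟨K2, h2⟩ := al s (h s List.mem_cons_self)
      refine ⟨K1 ∪ K2, fun e he hx t ht => ?_⟩
      rcases List.mem_cons.mp ht with rfl | ht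
      · exact h2 e he (fun x hx' => hx x (Finset.mem_union_right _ hx'))
      · exact h1 e he (fun x hx' => hx x (Finset.mem_union_left _ hx')) t ht
  obtain ⟨K1, h1⟩ := key b hb
  obtain ⟨e, he, hx⟩ := hpos (K ∪ K1)
  exact ⟨e, he, h1 e he (fun x hx' => hx x (Finset.mem_union_right _ hx')),
    fun x hx' => hx x (Finset.mem_union_left _ hx')⟩

/-- state of the construction: finite set of clopen sets, chosen clopen sets, chosen indices -/
abbrev Sta := Finset Xc × Finset Xc × Finset ℕ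

/-- the invariant -/
def Inv (R : Set Xc) (a : ℕ → List Pc) (a0 : List Pc) (A : Set ℕ) (s : Sta) : Prop :=
  (∀ e ∈ s.1, e ∈ R ∧ e ∈ inter a0 ∧ ∀ i ∈ s.2.2, e ∈ inter (a i)) ∧ ∀ i ∈ s.2.2, i ∈ A

/-- one step of the construction -/
def Rel (A : Set ℕ) (Q : Xc → Code) (l : ℕ → List Pc) (x : ℕ → Xc) (en : Code → ℕ → Om)
    (k : ℕ) (s s' : Sta) : Prop :=
  (∃ e ∈ s'.1, e ∈ s'.2.1 ∧ ∀ p ∈ s.2.1, ∀ m < k, en (Q p) m ∉ e) ∧ s.2.1 ⊆ s'.2.1 ∧
  s.1 ⊆ s'.1 ∧
  (∀ e ∈ s.1, ∀ i ≤ k, ∀ m ≤ k, ∀ j ≤ k, e ∈ inter (l i) →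
    Agree (Dc (Q e) ∪ roots (l i) e) (x m) e →
      ∀ z, ∃ e' ∈ s'.1, e' ∈ inter (l i) ∧ Agree (Dj j z) e' (x m)) ∧
  ∃ n ∈ s'.2.2, n ∈ A ∧ (∀ i ∈ s.2.2, i < n) ∧ s.2.2 ⊆ s'.2.2

/-- the list of pieces at a stage -/
noncomputable def lst (r : Pc) (a : ℕ → List Pc) (a0 : List Pc) (N : Finset ℕ) : List Pc :=
  r :: (a0 ++ N.toList.flatMap a)

theorem mem_inter_lst {r : Pc} {a : ℕ → List Pc} {a0 : List Pc} {N : Finset ℕ} {e : Xc} :
    e ∈ inter (lst r a a0 N) ↔ e ∈ r.1 ∧ e ∈ inter a0 ∧ ∀ i ∈ N, e ∈ inter (a i) := by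
  simp only [inter, Set.mem_setOf_eq, lst, List.mem_cons, List.mem_append, List.mem_flatMap,
    Finset.mem_toList]
  constructor
  · intro h
    exact ⟨h r (Or.inl rfl), fun s hs => h s (Or.inr (Or.inl hs)),
      fun i hi s hs => h s (Or.inr (Or.inr ⟨i, hi, hs⟩))⟩
  · rintro ⟨h1, h2, h3⟩ s (rfl | hs | ⟨i, hi, hs⟩)
    · exact h1
    · exact h2 s hs
    · exact h3 i hi s hs

theorem lst_sub {M : Set Pc} {r : Pc} {a : ℕ → List Pc} {a0 : List Pc} {N : Finset ℕ}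
    (hr : r ∈ M) (ha : ∀ n, ∀ s ∈ a n, s ∈ M) (ha0 : ∀ s ∈ a0, s ∈ M) :
    ∀ s ∈ lst r a a0 N, s ∈ M := by
  simp only [lst, List.mem_cons, List.mem_append, List.mem_flatMap]
  rintro s (rfl | hs | ⟨i, hi, hs⟩)
  · exact hr
  · exact ha0 s hs
  · exact ha i s hs

theorem roots_lst {r : Pc} {a : ℕ → List Pc} {a0 : List Pc} {N : Finset ℕ} {e : Xc} {D : Set Om}
    (h1 : Dc (r.2 e) ⊆ D) (h2 : roots a0 e ⊆ D) (h3 : ∀ i ∈ N, roots (a i) e ⊆ D) :
    roots (lst r a a0 N) e ⊆ D := by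
  rintro y ⟨s, hs, hy⟩
  simp only [lst, List.mem_cons, List.mem_append, List.mem_flatMap, Finset.mem_toList] at hs
  rcases hs with rfl | hs | ⟨i, hi, hs⟩
  · exact h1 hy
  · exact h2 ⟨s, hs, hy⟩
  · exact h3 i hi ⟨s, hs, hy⟩

theorem step {M : Set Pc} (hM : Star M) {r : Pc} (hr : r ∈ M) (hpos : Pos r.1)
    (al : AlmostIn r.1 M) {a : ℕ → List Pc} {a0 : List Pc} (ha : ∀ n, ∀ s ∈ a n, s ∈ M)
    (ha0 : ∀ s ∈ a0, s ∈ M) {A : Set ℕ} (hA : A.Infinite) {Q : Xc → Code}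
    (hQ1 : ∀ e, Dc (r.2 e) ⊆ Dc (Q e)) (hQ2 : ∀ e, roots a0 e ⊆ Dc (Q e))
    (hQ3 : ∀ e ∈ inter a0, ∀ n ∈ A, e ∈ inter (a n) → roots (a n) e ⊆ Dc (Q e))
    (hn : ∀ e ∈ inter a0, ∃ n0 : ℕ, ∀ n ≥ n0, e ∈ inter (a n)) {l : ℕ → List Pc}
    (hl : ∀ i, ∀ s ∈ l i, s ∈ M) (x : ℕ → Xc) (en : Code → ℕ → Om) (k : ℕ) (s : Sta)
    (h : Inv r.1 a a0 A s) : ∃ s', Inv r.1 a a0 A s' ∧ Rel A Q l x en k s s' := by
  classical
  obtain ⟨C, P, N⟩ := s
  obtain ⟨hC, hN⟩ := h
  simp only at hC hN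
  -- the new point
  obtain ⟨ek, hek, hek2, hekK⟩ := pick hpos al (lst r a a0 N) (lst_sub hr ha ha0)
    ((P ×ˢ Finset.range k).image fun q => en (Q q.1) q.2)
  -- the finite sets
  have hE : ∀ q : Xc × ℕ × ℕ × ℕ, ∃ E : Finset Xc, (∀ e' ∈ E, e' ∈ inter (lst r a a0 N)) ∧
      (q.1 ∈ C → q.1 ∈ inter (l q.2.1) →
        Agree (Dc (Q q.1) ∪ roots (l q.2.1) q.1) (x q.2.2.1) q.1 →
          ∀ z, ∃ e' ∈ E, e' ∈ inter (l q.2.1) ∧ Agree (Dj q.2.2.2 z) e' (x q.2.2.1)) := by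
    rintro ⟨e, i, m, j⟩
    by_cases hc : e ∈ C ∧ e ∈ inter (l i) ∧ Agree (Dc (Q e) ∪ roots (l i) e) (x m) e
    · obtain ⟨he, hel, hag⟩ := hc
      obtain ⟨e1, e2, e3⟩ := hC e he
      have heL : e ∈ inter (lst r a a0 N) := mem_inter_lst.mpr ⟨e1, e2, e3⟩
      have hrt : roots (lst r a a0 N) e ⊆ Dc (Q e) :=
        roots_lst (hQ1 e) (hQ2 e) (fun i hi => hQ3 e e2 i (hN i hi) (e3 i hi))
      have hfull := hM (lst r a a0 N ++ l i) (by
        intro s hs
        rcases List.mem_append.mp hs with hs | hs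
        · exact lst_sub hr ha ha0 s hs
        · exact hl i s hs) e (by rw [inter_append]; exact ⟨heL, hel⟩)
      rw [inter_append, roots_append] at hfull
      obtain ⟨E, hEf, hEs, hEz⟩ := Dj_compact (inter (lst r a a0 N) ∩ inter (l i)) (x m) j
        (fun z => hfull (x m) (fun y hy => hag y (by
          rcases hy with hy | hy
          · exact Or.inl (hrt hy)
          · exact Or.inr hy)) (j, z))
      refine ⟨hEf.toFinset, fun e' he' => (hEs (hEf.mem_toFinset.mp he')).1, fun _ _ _ z => ?_⟩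
      obtain ⟨e', he', hz⟩ := hEz z
      exact ⟨e', hEf.mem_toFinset.mpr he', (hEs he').2, hz⟩
    · refine ⟨∅, fun e' he' => absurd he' (Finset.notMem_empty _), fun h1 h2 h3 => ?_⟩
      exact absurd ⟨h1, h2, h3⟩ hc
  choose E hE1 hE2 using hE
  let R4 : Finset (Xc × ℕ × ℕ × ℕ) :=
    C ×ˢ (Finset.range (k + 1) ×ˢ (Finset.range (k + 1) ×ˢ Finset.range (k + 1)))
  let C' : Finset Xc := insert ek (C ∪ R4.biUnion E)
  have hC' : ∀ e ∈ C', e ∈ inter (lst r a a0 N) := by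
    intro e he
    rcases Finset.mem_insert.mp he with rfl | he
    · exact hek2
    · rcases Finset.mem_union.mp he with he | he
      · exact mem_inter_lst.mpr (hC e he)
      · obtain ⟨q, -, hq⟩ := Finset.mem_biUnion.mp he
        exact hE1 q e hq
  -- the new index
  choose! n0 hn0 using hn
  obtain ⟨n, hnA, hn⟩ := hA.exists_gt (C'.sup n0 + N.sup id)
  have hnN : ∀ i ∈ N, i < n := by
    intro i hi
    have : i ≤ N.sup id := Finset.le_sup (f := id) hi
    omega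
  have hnC : ∀ e ∈ C', e ∈ inter (a n) := by
    intro e he
    have h2 := (mem_inter_lst.mp (hC' e he)).2.1
    refine hn0 e h2 n ?_
    have : n0 e ≤ C'.sup n0 := Finset.le_sup he
    omega
  refine ⟨(C', insert ek P, insert n N), ⟨?_, ?_⟩, ?_, ?_, ?_, ?_, ?_⟩
  · intro e he
    obtain ⟨e1, e2, e3⟩ := mem_inter_lst.mp (hC' e he)
    refine ⟨e1, e2, fun i hi => ?_⟩
    rcases Finset.mem_insert.mp hi with rfl | hi
    · exact hnC e he
    · exact e3 i hi
  · intro i hi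
    rcases Finset.mem_insert.mp hi with rfl | hi
    · exact hnA
    · exact hN i hi
  · refine ⟨ek, Finset.mem_insert_self _ _, Finset.mem_insert_self _ _, fun p hp m hm => ?_⟩
    exact hekK _ (Finset.mem_image.mpr ⟨(p, m), Finset.mem_product.mpr
      ⟨hp, Finset.mem_range.mpr hm⟩, rfl⟩)
  · exact Finset.subset_insert _ _
  · intro e he
    exact Finset.mem_insert_of_mem (Finset.mem_union_left _ he)
  · intro e he i hi m hm j hj h1 h2 z
    obtain ⟨e', he', hz⟩ := hE2 (e, i, m, j) he h1 h2 z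
    refine ⟨e', Finset.mem_insert_of_mem (Finset.mem_union_right _
      (Finset.mem_biUnion.mpr ⟨(e, i, m, j), ?_, he'⟩)), hz⟩
    simp only [R4, Finset.mem_product, Finset.mem_range]
    exact ⟨he, by omega, by omega, by omega⟩
  · exact ⟨n, Finset.mem_insert_self _ _, hnA, hnN, Finset.subset_insert _ _⟩

end BasicLAux

/-- Second step. Let `A`, `ρ` be given by `basic_diag` and `Q e` a code with
`Dc (r.2 e) ∪ roots a0 e ∪ Dc (ρ e) ⊆ Dc (Q e)`. Let `l i` be an enumeration of all finite lists of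
members of `M` (`M` is countable) and `x i` an enumeration of `Xc`. Construct finite sets
`C 0 ⊆ C 1 ⊆ ...` and `n 0 < n 1 < ...` in `A` with
`C k ⊆ r.1 ∩ inter a0 ∩ ⋂ i < k, inter (a (n i))`. Stage `k`:
1. let `K` be a finite set containing the first `k` points of fixed enumerations of
`Dc (Q (e i))`, `i < k`; choose `e k ∈ r.1 ∩ inter a0 ∩ ⋂ i < k, inter (a (n i))` avoiding `K` (possible:
`r.1` is positive and almost contained in every member of `M`);
2. for every `e ∈ C k ∪ {e k}`, `i ≤ k` with `e ∈ inter (l i)`, `m ≤ k` with `x m` agreeing with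
`e` on `Dc (Q e) ∪ roots (l i) e`, `j ≤ k`: by `hM` the set
`r.1 ∩ inter a0 ∩ ⋂ i' < k, inter (a (n i')) ∩ inter (l i)` is full at `e` with a root contained in
`Dc (Q e) ∪ roots (l i) e`, so it contains for every `z` an `e'` agreeing with `x m` on `Dj j z`; by
`Dj_compact` a finite subset `E` does; `C (k+1)` is the union of `C k ∪ {e k}` and all these `E`;
3. choose `n k ∈ A` larger than the previous ones such that all `e ∈ C (k+1)` are in
`inter (a n)` for `n ≥ n k` (`hyp`).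
`r' = (⋃ C k, Q)`, infinite set `{n k}`. `StarAdd M r'`: for `e ∈ r'.1 ∩ inter b`, `e''` agreeing with
`e` on `Dc (Q e) ∪ roots b e` and a code `(j, z)` take `k` large with `b = l i`, `e'' = x m`,
`i, m, j ≤ k`, `e ∈ C k`. `Pos`: `F k = e k ∩ Dc (Q (e k))` is disjoint from the `K` of stage `k`, so
every point is in finitely many `F k`; given `K'` choose `k` with `F k ∩ K' = ∅`, by `sep_avoid`
there is `e'''` agreeing with `e k` on `Dc (Q (e k))` and avoiding `K'`; by the case `b = []` of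
`StarAdd` some `e' ∈ r'.1` agrees with `e'''` on a root set containing `K'`. -/
theorem basicL (M : Set Pc) (hc : M.Countable) (hM : Star M) (r : Pc) (hr : r ∈ M)
    (hpos : Pos r.1) (al : AlmostIn r.1 M) (a : ℕ → List Pc) (a0 : List Pc)
    (ha : ∀ n, ∀ s ∈ a n, s ∈ M) (ha0 : ∀ s ∈ a0, s ∈ M)
    (hyp : ∀ e ∈ inter a0, ∃ j n0 : ℕ, ∀ n ≥ n0, e ∈ inter (a n) ∧ ∃ z, roots (a n) e ⊆ Dj j z) :
    ∃ A : Set ℕ, A.Infinite ∧ ∃ r' : Pc, StarAdd M r' ∧ Pos r'.1 ∧ r'.1 ⊆ r.1 ∧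
      ∀ n ∈ A, r'.1 ⊆ inter (a n) := by
  classical
  obtain ⟨A0, hA0, ρ, hρ⟩ := basic_diag a a0 hyp
  have hQ : ∀ e : Xc, ∃ c : Code, Dc (r.2 e) ⊆ Dc c ∧ roots a0 e ⊆ Dc c ∧ Dc (ρ e) ⊆ Dc c := by
    intro e
    obtain ⟨b1, h1⟩ := code_roots a0 e
    obtain ⟨b2, h2, h3⟩ := code_union (r.2 e) b1
    obtain ⟨b3, h4, h5⟩ := code_union b2 (ρ e)
    exact ⟨b3, h2.trans h4, (h1.trans h3).trans h4, h5⟩
  choose Q hQ1 hQ2 hQρ using hQ
  -- enumerations
  have : Countable Xc := countable_Xc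
  obtain ⟨x, hx⟩ := exists_surjective_nat Xc
  have : Countable M := hc.to_subtype
  obtain ⟨l0, hl0⟩ := exists_surjective_nat (List M)
  have hen : ∀ c : Code, ∃ f : ℕ → Om, Dc c ⊆ range f := by
    intro c
    rcases (Dc c).eq_empty_or_nonempty with h | h
    · exact ⟨fun _ _ => false, by rw [h]; exact empty_subset _⟩
    · obtain ⟨f, hf⟩ := (Dc_countable c).exists_eq_range h
      exact ⟨f, hf.le⟩
  choose en hen using hen
  have hl : ∀ i, ∀ s ∈ (l0 i).map (fun t : M => (t : Pc)), s ∈ M := by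
    intro i s hs
    obtain ⟨t, -, rfl⟩ := List.mem_map.mp hs
    exact t.2
  have hls : ∀ b : List Pc, (∀ s ∈ b, s ∈ M) → ∃ i, (l0 i).map (fun t : M => (t : Pc)) = b := by
    intro b hb
    lift b to List M using hb
    obtain ⟨i, hi⟩ := hl0 b
    exact ⟨i, by rw [hi]⟩
  obtain ⟨f, f0, hf⟩ := BasicLAux.seq_rec
    (fun _ s => BasicLAux.Inv r.1 a a0 A0 s)
    (BasicLAux.Rel A0 Q (fun i => (l0 i).map (fun t : M => (t : Pc))) x en) (∅, ∅, ∅)
    ⟨fun e he => absurd he (Finset.notMem_empty _), fun i hi => absurd hi (Finset.notMem_empty _)⟩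
    (fun k s h => BasicLAux.step hM hr hpos al ha ha0 hA0 hQ1 hQ2
      (fun e he n hn hen' => (hρ e he n hn hen').trans (hQρ e))
      (fun e he => by
        obtain ⟨j, n0, h⟩ := hyp e he
        exact ⟨n0, fun n hn => (h n hn).1⟩) hl x en k s h)
  have hInv := fun k => (hf k).1
  have hRel := fun k => (hf k).2
  have hCm : Monotone fun k => (f k).1 := monotone_nat_of_le_succ fun k => (hRel k).2.2.1
  have hPm : Monotone fun k => (f k).2.1 := monotone_nat_of_le_succ fun k => (hRel k).2.1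
  have hNm : Monotone fun k => (f k).2.2 := monotone_nat_of_le_succ fun k => by
    obtain ⟨n, -, -, -, h⟩ := (hRel k).2.2.2.2
    exact h
  choose e he heP heK using fun k => (hRel k).1
  choose n hnN hnA hnlt hns using fun k => (hRel k).2.2.2.2
  have hnmono : StrictMono n := strictMono_nat_of_lt_succ fun k =>
    hnlt (k + 1) (n k) (hnN k)
  let Cw : Set Xc := {e | ∃ k, e ∈ (f k).1}
  have hstar : StarAdd M (Cw, Q) := by
    intro b hb e he heb e'' hag c
    obtain ⟨i, hi⟩ := hls b hb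
    obtain ⟨m, hm⟩ := hx e''
    obtain ⟨k, hk⟩ := he
    let K := max (max i m) (max c.1 k)
    have hkK : e ∈ (f K).1 := hCm (le_trans (le_max_right c.1 k) (le_max_right _ _)) hk
    have h1 := (hRel K).2.2.2.1 e hkK i (le_trans (le_max_left i m) (le_max_left _ _)) m
      (le_trans (le_max_right i m) (le_max_left _ _)) c.1
      (le_trans (le_max_left c.1 k) (le_max_right _ _))
    simp only [hi, hm] at h1
    obtain ⟨e', he', hb', hz⟩ := h1 heb hag c.2
    exact ⟨e', ⟨⟨K + 1, he'⟩, hb'⟩, hz⟩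
  refine ⟨range n, infinite_range_of_injective hnmono.injective, (Cw, Q), hstar, ?_, ?_, ?_⟩
  · -- positivity
    intro K
    have hfin : ∀ y : Om, ∃ k0, ∀ k ≥ k0, y ∈ Dc (Q (e k)) → y ∉ e k := by
      intro y
      by_cases hy : ∃ k1, y ∈ Dc (Q (e k1))
      · obtain ⟨k1, hk1⟩ := hy
        obtain ⟨m, hm⟩ := hen _ hk1
        refine ⟨max k1 m + 1, fun k hk _ => ?_⟩
        rw [← hm]
        have h1 : k1 ≤ max k1 m := le_max_left _ _
        have h2 : m ≤ max k1 m := le_max_right _ _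
        exact heK k (e k1) (hPm (by omega : k1 + 1 ≤ k) (heP k1)) m (by omega)
      · exact ⟨0, fun k _ h => absurd ⟨k, h⟩ hy⟩
    choose k0 hk0 using hfin
    let k := K.sup k0
    obtain ⟨e3, h3, h4⟩ := sep_avoid (e k) (Dc (Q (e k))) (Dc_closed _) K
      (fun y hy h => hk0 y k (Finset.le_sup hy) h)
    obtain ⟨c, hcK⟩ := code_finset K
    obtain ⟨e', he', hag⟩ := hstar [] (fun s hs => absurd hs (List.not_mem_nil)) (e k)
      ⟨k + 1, he k⟩ (fun s hs => absurd hs (List.not_mem_nil)) e3 (fun y hy => by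
        rcases hy with hy | ⟨s, hs, -⟩
        · exact h3 y hy
        · exact absurd hs (List.not_mem_nil)) c
    exact ⟨e', he'.1, fun y hy h => h4 y hy ((hag y (hcK hy)).mp h)⟩
  · rintro e ⟨k, hk⟩
    exact ((hInv k).1 e hk).1
  · rintro _ ⟨k, rfl⟩ e ⟨m, hm⟩
    have h1 : e ∈ (f (max m (k + 1))).1 := hCm (le_max_left _ _) hm
    have h2 : n k ∈ (f (max m (k + 1))).2.2 := hNm (le_max_right _ _) (hnN k)
    exact ((hInv _).1 e h1).2.2 (n k) h2

end SBG9
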