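import Pool.Agent.Lib.SBG9.Defs

/-!
# Separation by clopen sets in Cantor space
-/

open Set Filter Topology

namespace SBG9

/-- The finite set of the `x` in `K` outside `D` is closed and disjoint from the closed set `D`;
take a clopen set `v` containing it and disjoint from `D` (`exists_clopen_of_closed_subset_open`)
and put `e' = e \ v`. -/
theorem sep_avoid (e : Xc) (D : Set Om) (hD : IsClosed D) (K : Finset Om)
    (h : ∀ x ∈ K, x ∈ D → x ∉ e) : ∃ e' : Xc, Agree D e' e ∧ ∀ x ∈ K, x ∉ e' := by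
  have hfin : ({x | x ∈ K ∧ x ∉ D} : Set Om).Finite :=
    K.finite_toSet.subset fun x hx => hx.1
  obtain ⟨v, hv, hKv, hvD⟩ := exists_clopen_of_closed_subset_open
    (Z := {x | x ∈ K ∧ x ∉ D}) (U := Dᶜ) hfin.isClosed hD.isOpen_compl fun x hx => hx.2
  refine ⟨e \ ⟨v, hv⟩, ?_, ?_⟩
  · intro x hx
    constructor
    · intro h1
      exact h1.1
    · intro h1
      exact ⟨h1, fun h2 => hvD h2 hx⟩
  · intro x hx h1
    by_cases hxD : x ∈ D
    · exact h x hx hxD h1.1
    · exact h1.2 (hKv ⟨hx, hxD⟩)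

/-- `e' = e ∪ w` with `w` a clopen neighbourhood of `z` disjoint from `D`. -/
theorem sep_add (e : Xc) (D : Set Om) (hD : IsClosed D) (z : Om) (hz : z ∉ D) :
    ∃ e' : Xc, Agree D e' e ∧ z ∈ e' := by
  obtain ⟨v, hv, hzv, hvD⟩ := exists_clopen_of_closed_subset_open
    (Z := {z}) (U := Dᶜ) isClosed_singleton hD.isOpen_compl
      fun x hx => by rw [mem_singleton_iff.1 hx]; exact hz
  refine ⟨e ⊔ ⟨v, hv⟩, ?_, Or.inr (hzv (mem_singleton z))⟩
  intro x hx
  constructor
  · rintro (h1 | h1)
    · exact h1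
    · exact absurd hx (hvD h1)
  · intro h1
    exact Or.inl h1

/-- Clopen sets are finite unions of members of a countable base. -/
theorem countable_Xc : Countable Xc :=
  TopologicalSpace.Clopens.countable_iff_secondCountable.2 inferInstance

end SBG9
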