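import Pool.Agent.Lib.SBG9.RootsA
import Pool.Agent.Lib.SBG9.Sep

/-!
# Codes of root sets
-/

open Set Filter Topology

namespace SBG9

theorem Dc_closed (c : Code) : IsClosed (Dc c) := Dj_closed c.1 c.2

theorem Dc_countable (c : Code) : (Dc c).Countable := Dj_countable c.1 c.2

theorem Dj_mono_level (j k : ℕ) (h : j ≤ k) (z : Om) : ∃ w, Dj j z ⊆ Dj k w := by
  induction k, h using Nat.le_induction with
  | base => exact ⟨z, Subset.rfl⟩
  | succ k _ ih =>
    obtain ⟨w, hw⟩ := ih
    obtain ⟨w', hw', -⟩ := Dj_union k w w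
    exact ⟨w', hw.trans hw'⟩

/-- Levels are monotone (`Dj_union` with `z = z'`), so two codes can be brought to the same
level; then `Dj_union`. -/
theorem code_union (c d : Code) : ∃ b : Code, Dc c ⊆ Dc b ∧ Dc d ⊆ Dc b := by
  obtain ⟨w, hw⟩ := Dj_mono_level c.1 (max c.1 d.1) (le_max_left _ _) c.2
  obtain ⟨w', hw'⟩ := Dj_mono_level d.1 (max c.1 d.1) (le_max_right _ _) d.2
  obtain ⟨v, hv, hv'⟩ := Dj_union (max c.1 d.1) w w'
  exact ⟨(max c.1 d.1 + 1, v), hw.trans hv, hw'.trans hv'⟩

theorem code_finset (K : Finset Om) : ∃ b : Code, (↑K : Set Om) ⊆ Dc b := by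
  classical
  induction K using Finset.induction_on with
  | empty => exact ⟨(0, fun _ => false), by simp⟩
  | insert x K _ ih =>
    obtain ⟨b, hb⟩ := ih
    obtain ⟨d, hd, hd'⟩ := code_union (0, x) b
    refine ⟨d, ?_⟩
    rw [Finset.coe_insert]
    apply insert_subset
    · exact hd (mem_singleton x)
    · exact hb.trans hd'

private theorem codesAux_nil (e : Xc) : roots [] e = ∅ := by
  ext x
  simp [roots]

private theorem codesAux_cons (r : Pc) (a : List Pc) (e : Xc) :
    roots (r :: a) e = Dc (r.2 e) ∪ roots a e := by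
  ext x
  simp [roots]

theorem code_roots (a : List Pc) (e : Xc) : ∃ b : Code, roots a e ⊆ Dc b := by
  induction a with
  | nil => exact ⟨(0, fun _ => false), by rw [codesAux_nil]; exact empty_subset _⟩
  | cons r a ih =>
    obtain ⟨b, hb⟩ := ih
    obtain ⟨d, hd, hd'⟩ := code_union (r.2 e) b
    exact ⟨d, by rw [codesAux_cons]; exact union_subset hd (hb.trans hd')⟩

/-- `roots a e` is a finite union of closed sets. -/
theorem roots_closed (a : List Pc) (e : Xc) : IsClosed (roots a e) := by
  induction a with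
  | nil => rw [codesAux_nil]; exact isClosed_empty
  | cons r a ih => rw [codesAux_cons]; exact (Dc_closed _).union ih

theorem roots_countable (a : List Pc) (e : Xc) : (roots a e).Countable := by
  obtain ⟨b, hb⟩ := code_roots a e
  exact (Dc_countable b).mono hb

/-- Bounded subsequences, in the form used in the construction: if for all `n ∈ A` (infinite)
the set `D n` is contained in a root set of level `j`, then there are an infinite `A' ⊆ A` and a
code `b` with `D n ⊆ Dc b` for `n ∈ A'`. (From `Dj_bound` applied to an enumeration of `A`.) -/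
theorem code_bound (j : ℕ) (A : Set ℕ) (hA : A.Infinite) (D : ℕ → Set Om)
    (h : ∀ n ∈ A, ∃ z, D n ⊆ Dj j z) :
    ∃ A' : Set ℕ, A'.Infinite ∧ A' ⊆ A ∧ ∃ b : Code, ∀ n ∈ A', D n ⊆ Dc b := by
  have h' : ∀ n : A, ∃ z, D n ⊆ Dj j z := fun n => h n n.2
  choose z hz using h'
  obtain ⟨φ, hφ, w, hw⟩ := Dj_bound j (fun n => z (hA.natEmbedding A n))
  refine ⟨range (fun n => ((hA.natEmbedding A (φ n) : A) : ℕ)), ?_, ?_, (j + 1, w), ?_⟩
  · apply infinite_range_of_injective
    intro m n hmn
    exact hφ.injective ((hA.natEmbedding A).injective (Subtype.ext hmn))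
  · rintro _ ⟨n, rfl⟩
    exact (hA.natEmbedding A (φ n)).2
  · rintro _ ⟨n, rfl⟩
    exact (hz _).trans (hw n)

end SBG9
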