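import Mathlib

/-!
# Sacks indestructibility of basically generated ultrafilters: definitions

* ultrafilters on the natural numbers: nonprincipal, basically generated;
* perfect subtrees of the full binary tree, Sacks indestructible ultrafilters;
* the compact families of countable closed root sets in Cantor space, and the conditions of
  the construction.
-/

open Set Filter Topology

namespace SBG9

/-! ## The statement -/

/-- The point of Cantor space given by a set of natural numbers (its characteristic function). -/
noncomputable def cantorPt (A : Set ℕ) : ℕ → Bool := by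
  classical exact fun i => decide (i ∈ A)

/-- Nonprincipal ultrafilters. -/
def Nonprincipal (U : Ultrafilter ℕ) : Prop := ∀ i : ℕ, ({i}ᶜ : Set ℕ) ∈ U

/-- Basically generated ultrafilters: there is a base `B` of `U` such that whenever a sequence
of members of `B` converges (in the product topology) to a member of `B`, some infinite
subfamily has its intersection in `U`. -/
def BasicallyGenerated (U : Ultrafilter ℕ) : Prop :=
  ∃ B : Set (Set ℕ), (∀ X ∈ B, X ∈ U) ∧ (∀ A ∈ U, ∃ X ∈ B, X ⊆ A) ∧
    ∀ (X : ℕ → Set ℕ) (L : Set ℕ), (∀ n, X n ∈ B) → L ∈ B →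
      Tendsto (fun n => cantorPt (X n)) atTop (𝓝 (cantorPt L)) →
        ∃ A : Set ℕ, A.Infinite ∧ (⋂ n ∈ A, X n) ∈ U

/-- Perfect subtrees of the full binary tree: nonempty sets of finite `0`-`1` sequences closed
under initial segments in which every node has two incompatible extensions. -/
structure PTree where
  /-- the nodes of the tree -/
  nodes : Set (List Bool)
  root : [] ∈ nodes
  down : ∀ s t : List Bool, s <+: t → t ∈ nodes → s ∈ nodes
  perf : ∀ s ∈ nodes, ∃ t ∈ nodes, ∃ u ∈ nodes, s <+: t ∧ s <+: u ∧ ¬ t <+: u ∧ ¬ u <+: t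

/-- Sacks forcing: `p` is stronger than `q` if `p` is a subtree of `q`. -/
instance : LE PTree := ⟨fun p q => p.nodes ⊆ q.nodes⟩

/-- A nice name for a set of natural numbers is a function `s` from the natural numbers to sets
of conditions; `p` forces that `n` belongs to it iff the conditions below some member of `s n`
are dense below `p`. -/
def Forces (p : PTree) (s : ℕ → Set PTree) (n : ℕ) : Prop :=
  ∀ r : PTree, r ≤ p → ∃ r' : PTree, r' ≤ r ∧ ∃ t ∈ s n, r' ≤ t

/-- `p` forces that `n` does not belong to the set named by `s`: no condition below `p` is below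
a member of `s n`. -/
def ForcesNot (p : PTree) (s : ℕ → Set PTree) (n : ℕ) : Prop :=
  ∀ r : PTree, r ≤ p → ∀ t ∈ s n, ¬ r ≤ t

/-- `U` is Sacks indestructible: for every name of a set of natural numbers, densely many
conditions `q` force, for some `B` in `U`, that `B` is contained in the named set, or that `B` is
disjoint from it. -/
def SacksIndestructible (U : Ultrafilter ℕ) : Prop :=
  ∀ (s : ℕ → Set PTree) (p : PTree), ∃ q : PTree, q ≤ p ∧ ∃ B ∈ U,
    (∀ n ∈ B, Forces q s n) ∨ (∀ n ∈ B, ForcesNot q s n)

/-! ## Cantor space, clopen sets, root sets -/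

/-- Cantor space. -/
abbrev Om := ℕ → Bool

/-- The countable set of clopen subsets of Cantor space. -/
abbrev Xc := TopologicalSpace.Clopens Om

/-- The initial segment of length `n`. -/
def pre (x : Om) (n : ℕ) : List Bool := (List.range n).map x

/-- The branches of a tree. -/
def body (p : PTree) : Set Om := {x | ∀ n, pre x n ∈ p.nodes}

/-- The `n`-th component. -/
def unp (z : Om) (n : ℕ) : Om := fun i => z (Nat.pair n i)

/-- A sequence converging to its first term: `sp z (n + 1)` agrees with `sp z 0` below `n`. -/
def sp (z : Om) : ℕ → Om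
  | 0 => unp z 0
  | n + 1 => fun i => if i < n then unp z 0 i else unp z (n + 1) i

/-- The root sets of level `j`. -/
def Dj : ℕ → Om → Set Om
  | 0, z => {z}
  | j + 1, z => ⋃ n, Dj j (sp z n)

/-- Codes of root sets. -/
abbrev Code := ℕ × Om

/-- The root set with a given code. -/
def Dc (c : Code) : Set Om := Dj c.1 c.2

/-- `e` and `e'` have the same points in `D`. -/
def Agree (D : Set Om) (e e' : Xc) : Prop := ∀ x ∈ D, (x ∈ e ↔ x ∈ e')

/-- `C` is full at `e` with root `D`. -/
def Full (C : Set Xc) (e : Xc) (D : Set Om) : Prop :=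
  ∀ e'' : Xc, Agree D e'' e → ∀ c : Code, ∃ e' ∈ C, Agree (Dc c) e' e''

/-- A piece: a set of clopen sets with a root function. -/
abbrev Pc := Set Xc × (Xc → Code)

/-- Intersection of a finite list of pieces. -/
def inter (a : List Pc) : Set Xc := {e | ∀ r ∈ a, e ∈ r.1}

/-- The union of the roots of `e` in a finite list of pieces. -/
def roots (a : List Pc) (e : Xc) : Set Om := {x | ∃ r ∈ a, x ∈ Dc (r.2 e)}

/-- `R` is positive: it contains clopen sets avoiding any given finite set of points. -/
def Pos (R : Set Xc) : Prop := ∀ K : Finset Om, ∃ e ∈ R, ∀ x ∈ K, x ∉ e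

/-- A finite list of pieces is admissible. -/
def OK (a : List Pc) : Prop := (∀ e ∈ inter a, Full (inter a) e (roots a e)) ∧ Pos (inter a)

/-- The star condition for a family of pieces. -/
def Star (M : Set Pc) : Prop :=
  ∀ a : List Pc, (∀ r ∈ a, r ∈ M) → ∀ e ∈ inter a, Full (inter a) e (roots a e)

/-- The conditions: every finite list of members is admissible. -/
def Cond (M : Set Pc) : Prop := ∀ a : List Pc, (∀ r ∈ a, r ∈ M) → OK a

/-- `r` can be added to `M` preserving the star condition. -/
def StarAdd (M : Set Pc) (r : Pc) : Prop :=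
  ∀ b : List Pc, (∀ s ∈ b, s ∈ M) → ∀ e ∈ r.1, e ∈ inter b →
    Full (r.1 ∩ inter b) e (Dc (r.2 e) ∪ roots b e)

/-- `R` is almost contained in every member of `M`, up to sets avoiding finitely many points. -/
def AlmostIn (R : Set Xc) (M : Set Pc) : Prop :=
  ∀ r ∈ M, ∃ K : Finset Om, ∀ e ∈ R, (∀ x ∈ K, x ∉ e) → e ∈ r.1

end SBG9
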