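import Mathlib

/-!
# Generic families for countable conditions of finite character

The family `N` is built by transfinite recursion: well-order `T` with all initial segments
countable (possible because `#T ≤ ℵ₁`, see `Cardinal.exists_ord_eq`, `Ordinal.card_typein_lt`);
`f t` is a countable condition in `Good t` extending the union of the `f s`, `s < t`. The union
of an increasing family of conditions is a condition because a finite list is contained in one
member. -/

open Set Cardinal

namespace SBG9

theorem gen_list_in_one {S T : Type} (r : T → T → Prop) [IsWellOrder T r] (f : T → Set S)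
    (P : T → Prop) (mono : ∀ s s', P s → P s' → r s s' → f s ⊆ f s') (a : List S)
    (ha : ∀ x ∈ a, ∃ s, P s ∧ x ∈ f s) :
    a = [] ∨ ∃ s, P s ∧ ∀ x ∈ a, x ∈ f s := by
  induction a with
  | nil => exact Or.inl rfl
  | cons x l ih =>
    right
    obtain ⟨s, hs, hx⟩ := ha x (by simp)
    rcases ih (fun y hy => ha y (by simp [hy])) with h | ⟨s', hs', h⟩
    · subst h
      exact ⟨s, hs, by simpa using hx⟩
    · rcases trichotomous_of r s s' with hlt | heq | hgt
      · refine ⟨s', hs', ?_⟩
        intro y hy
        rcases List.mem_cons.1 hy with rfl | hy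
        · exact mono s s' hs hs' hlt hx
        · exact h y hy
      · subst heq
        refine ⟨s, hs, ?_⟩
        intro y hy
        rcases List.mem_cons.1 hy with rfl | hy
        · exact hx
        · exact h y hy
      · refine ⟨s, hs, ?_⟩
        intro y hy
        rcases List.mem_cons.1 hy with rfl | hy
        · exact hx
        · exact mono s' s hs' hs hgt (h y hy)

theorem gen_countable_seg {T : Type} (hT : Cardinal.mk T ≤ Cardinal.aleph 1) :
    ∃ (r : T → T → Prop) (_ : IsWellOrder T r), ∀ t, {s | r s t}.Countable := by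
  obtain ⟨r, hr, h⟩ := Cardinal.exists_ord_eq T
  refine ⟨r, hr, fun t => ?_⟩
  have h1 : (Ordinal.typein r t).card < Cardinal.mk T := by
    have := Ordinal.typein_lt_type r t
    rw [← h] at this
    exact Cardinal.lt_ord.1 this
  have h2 : Cardinal.mk {s | r s t} < Cardinal.aleph 1 := by
    have h3 : Cardinal.mk {s | r s t} = (Ordinal.typein r t).card := by
      rfl
    rw [h3]
    exact lt_of_lt_of_le h1 hT
  have h4 : Cardinal.mk {s | r s t} ≤ Cardinal.aleph0 := by
    rw [← Cardinal.aleph_zero]
    have h5 : (1 : Ordinal) = 0 + 1 := by simp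
    rw [h5, ← Cardinal.succ_aleph] at h2
    exact Order.lt_succ_iff.1 h2
  exact Cardinal.le_aleph0_iff_set_countable.1 h4

theorem generic_exists {S T : Type} (hT : Cardinal.mk T ≤ Cardinal.aleph 1)
    (OK : List S → Prop) (h0 : OK [])
    (Good : T → Set (Set S))
    (dense : ∀ t : T, ∀ M : Set S, M.Countable → (∀ a : List S, (∀ r ∈ a, r ∈ M) → OK a) →
      ∃ M' : Set S, M'.Countable ∧ (∀ a : List S, (∀ r ∈ a, r ∈ M') → OK a) ∧ M ⊆ M' ∧
        M' ∈ Good t) :
    ∃ N : Set S, (∀ a : List S, (∀ r ∈ a, r ∈ N) → OK a) ∧
      ∀ t, ∃ M' : Set S, M' ⊆ N ∧ M'.Countable ∧ M' ∈ Good t := by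
  classical
  obtain ⟨r, hr, hseg⟩ := gen_countable_seg hT
  let C : Set S → Prop := fun M => M.Countable ∧ ∀ a : List S, (∀ x ∈ a, x ∈ M) → OK a
  have dense' : ∀ t M, C M → ∃ M', C M' ∧ M ⊆ M' ∧ M' ∈ Good t := by
    intro t M hM
    obtain ⟨M', a, b, c, d⟩ := dense t M hM.1 hM.2
    exact ⟨M', ⟨a, b⟩, c, d⟩
  choose! g hg using dense'
  have wf : WellFounded r := hr.wf
  let F : ∀ t : T, (∀ s : T, r s t → Set S) → Set S :=
    fun t IH => g t (⋃ (s : T) (h : r s t), IH s h)
  let f : T → Set S := wf.fix F
  have hf : ∀ t, f t = g t (⋃ (s : T) (_ : r s t), f s) := by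
    intro t
    show wf.fix F t = _
    rw [wf.fix_eq]
  have main : ∀ t, C (f t) ∧ (⋃ (s : T) (_ : r s t), f s) ⊆ f t ∧ f t ∈ Good t := by
    intro t
    induction t using wf.induction with
    | _ t ih =>
      have hC : C (⋃ (s : T) (_ : r s t), f s) := by
        refine ⟨(hseg t).biUnion (fun s hs => (ih s hs).1.1), ?_⟩
        intro a ha
        rcases gen_list_in_one r f (fun s => r s t) (by
          intro s s' _ hs' hss'
          refine Set.Subset.trans ?_ (ih s' hs').2.1
          intro x hx
          simp only [Set.mem_iUnion]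
          exact ⟨s, hss', hx⟩) a (by
            intro x hx
            have := ha x hx
            simp only [Set.mem_iUnion] at this
            obtain ⟨s, hs, h⟩ := this
            exact ⟨s, hs, h⟩) with h | ⟨s, hs, h⟩
        · rw [h]; exact h0
        · exact (ih s hs).1.2 a h
      have := hg t _ hC
      rw [← hf t] at this
      exact this
  refine ⟨⋃ t, f t, ?_, fun t => ⟨f t, Set.subset_iUnion f t, (main t).1.1, (main t).2.2⟩⟩
  intro a ha
  rcases gen_list_in_one r f (fun _ => True) (by
    intro s s' _ _ hss'
    refine Set.Subset.trans ?_ (main s').2.1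
    intro x hx
    simp only [Set.mem_iUnion]
    exact ⟨s, hss', hx⟩) a (by
      intro x hx
      have := ha x hx
      simp only [Set.mem_iUnion] at this
      obtain ⟨s, hs⟩ := this
      exact ⟨s, trivial, hs⟩) with h | ⟨s, -, h⟩
  · rw [h]; exact h0
  · exact (main s).1.2 a h

end SBG9
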