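import Pool.Agent.Lib.SBG9.Pieces

/-!
# Splitting
-/

open Set Filter Topology

namespace SBG9

/-- Splitting. For a finite `K` let `C K = A ∩ r.1 ∩ {e | e avoids K}` with a root function `ρ K`
with `Dc (r.2 e) ∪ K ⊆ Dc (ρ K e)`.
(a) If some `C K` is empty, take `r' = r.1 ∩ {e | e avoids K}` with root function `ρ K`
(`starAdd_of_local` with `a = [r]`, `e2 = ⊥`, `D2 = K`), contained in the complement of `A`.
(b) If all `C K` are nonempty and `StarAdd M (C K, ρ K)` for some `K`, take `r' = (C K, ρ K)`; it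
is positive because `C (K ∪ K')` is nonempty.
(c) Otherwise, for every `K`, `StarAdd M (C K, ρ K)` fails: there are a list `b` in `M`,
`e0 ∈ C K ∩ inter b` and `e2` agreeing with `e0` on `D1 = Dc (ρ K e0) ∪ roots b e0`, and a code
`c`, such that no `e' ∈ C K ∩ inter b` agrees with `e2` on `Dc c`. Apply `pieces` with
`G n = r.1 ∩ Aᶜ`, the list `r :: b`, `e0`, `e2` and `D2 = D1 ∪ Dc c`: an `e' ∈ r.1 ∩ inter b`
agreeing with `e2` on `D2` avoids `K` (as `K ⊆ D1` and `e0` avoids `K`), so it is not in `A`. -/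
theorem split (M : Set Pc) (hM : Star M) (r : Pc) (hr : r ∈ M) (hpos : Pos r.1) (A : Set Xc) :
    ∃ r' : Pc, StarAdd M r' ∧ Pos r'.1 ∧ r'.1 ⊆ r.1 ∧ (r'.1 ⊆ A ∨ r'.1 ⊆ Aᶜ) := by
  classical
  have hρ : ∀ (K : Finset Om) (e : Xc), ∃ d : Code, Dc (r.2 e) ⊆ Dc d ∧ (↑K : Set Om) ⊆ Dc d := by
    intro K e
    obtain ⟨b, hb⟩ := code_finset K
    obtain ⟨d, hd1, hd2⟩ := code_union (r.2 e) b
    exact ⟨d, hd1, hb.trans hd2⟩
  choose ρ hρ1 hρ2 using hρ
  let B : Finset Om → Set Xc := fun K => r.1 ∩ {e | ∀ x ∈ K, x ∉ e}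
  let C : Finset Om → Set Xc := fun K => A ∩ B K
  by_cases hcase : ∃ K, C K = ∅
  · -- first case
    obtain ⟨K, hK⟩ := hcase
    refine ⟨(B K, ρ K), ?_, ?_, fun e he => he.1, Or.inr ?_⟩
    · apply starAdd_of_local M hM
      intro e he
      refine ⟨[r], ⊥, ↑K, ?_, ?_, ?_, ?_, ?_⟩
      · intro s hs
        rw [List.mem_singleton.1 hs]
        exact hr
      · intro s hs
        rw [List.mem_singleton.1 hs]
        exact he.1
      · intro x hx
        exact ⟨fun h => absurd h (he.2 x hx), fun h => absurd h (Set.notMem_empty x)⟩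
      · intro e' he' hag
        refine ⟨he' r (List.mem_singleton.2 rfl), fun x hx h => ?_⟩
        exact Set.notMem_empty x ((hag x hx).1 h)
      · apply union_subset
        · rintro x ⟨s, hs, hx⟩
          rw [List.mem_singleton.1 hs] at hx
          exact hρ1 K e hx
        · exact hρ2 K e
    · intro K'
      obtain ⟨e, he, hx⟩ := hpos (K ∪ K')
      exact ⟨e, ⟨he, fun x h => hx x (Finset.mem_union_left _ h)⟩,
        fun x h => hx x (Finset.mem_union_right _ h)⟩
    · intro e he hA
      have : e ∈ C K := ⟨hA, he⟩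
      rw [hK] at this
      exact Set.notMem_empty e this
  · have hne : ∀ K, (C K).Nonempty := fun K => by
      by_contra h
      exact hcase ⟨K, Set.not_nonempty_iff_eq_empty.1 h⟩
    by_cases hcase2 : ∃ K, StarAdd M (C K, ρ K)
    · -- second case
      obtain ⟨K, hK⟩ := hcase2
      refine ⟨(C K, ρ K), hK, ?_, fun e he => he.2.1, Or.inl fun e he => he.1⟩
      intro K'
      obtain ⟨e, heA, her, hx⟩ := hne (K ∪ K')
      exact ⟨e, ⟨heA, her, fun x h => hx x (Finset.mem_union_left _ h)⟩,
        fun x h => hx x (Finset.mem_union_right _ h)⟩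
    · -- third case
      have hfail : ∀ K, ∃ (b : List Pc) (e e'' : Xc) (c : Code), (∀ s ∈ b, s ∈ M) ∧ e ∈ C K ∧
          e ∈ inter b ∧ Agree (Dc (ρ K e) ∪ roots b e) e'' e ∧
          ∀ e' ∈ C K ∩ inter b, ¬ Agree (Dc c) e' e'' := by
        intro K
        by_contra hcon
        apply hcase2
        refine ⟨K, ?_⟩
        intro b hb e he heb e'' hag c
        by_contra hno
        exact hcon ⟨b, e, e'', c, hb, he, heb, hag, fun e' he' hc => hno ⟨e', he', hc⟩⟩
      obtain ⟨r', h1, h2, h3, -⟩ := pieces M hM (fun _ => r.1 ∩ Aᶜ) (by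
        intro n K
        obtain ⟨b, e, e'', c, hb, he, heb, hag, hno⟩ := hfail K
        refine ⟨r :: b, e, e'', Dc (ρ K e) ∪ roots b e ∪ Dc c, ?_, ?_, ?_, ?_, ?_, ?_, ?_, ?_⟩
        · intro s hs
          rcases List.mem_cons.1 hs with rfl | hs
          · exact hr
          · exact hb s hs
        · intro s hs
          rcases List.mem_cons.1 hs with rfl | hs
          · exact he.2.1
          · exact heb s hs
        · exact ((Dc_closed _).union (roots_closed _ _)).union (Dc_closed _)
        · obtain ⟨b1, hb1⟩ := code_roots b e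
          obtain ⟨b2, hb2, hb3⟩ := code_union (ρ K e) b1
          obtain ⟨b3, hb4, hb5⟩ := code_union b2 c
          exact ⟨b3, union_subset (union_subset (hb2.trans hb4) ((hb1.trans hb3).trans hb4)) hb5⟩
        · rintro x ⟨s, hs, hx⟩
          rcases List.mem_cons.1 hs with rfl | hs
          · exact Or.inl (Or.inl (hρ1 K e hx))
          · exact Or.inl (Or.inr ⟨s, hs, hx⟩)
        · rintro x ⟨s, hs, hx⟩
          rcases List.mem_cons.1 hs with rfl | hs
          · exact hag x (Or.inl (hρ1 K e hx))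
          · exact hag x (Or.inr ⟨s, hs, hx⟩)
        · intro x hx
          have hx1 : x ∈ Dc (ρ K e) := hρ2 K e hx
          refine ⟨Or.inl (Or.inl hx1), fun h => ?_⟩
          exact he.2.2 x hx ((hag x (Or.inl hx1)).1 h)
        · intro e' he' hag'
          have her : e' ∈ r.1 := he' r List.mem_cons_self
          refine ⟨her, fun heA => ?_⟩
          apply hno e' ⟨⟨heA, her, ?_⟩, fun s hs => he' s (List.mem_cons_of_mem _ hs)⟩
          · exact fun x hx => hag' x (Or.inr hx)
          · intro x hx h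
            have hx1 : x ∈ Dc (ρ K e) := hρ2 K e hx
            exact he.2.2 x hx ((hag x (Or.inl hx1)).1 ((hag' x (Or.inl (Or.inl hx1))).1 h)))
      refine ⟨r', h1, h2, ?_, Or.inr ?_⟩
      · intro e he
        obtain ⟨n, hn⟩ := h3 e he
        exact hn.1
      · intro e he
        obtain ⟨n, hn⟩ := h3 e he
        exact hn.2

end SBG9
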