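import Pool.Agent.Lib.SBG9.Pieces

/-!
# Meeting a perfect set
-/

open Set Filter Topology

namespace SBG9

/-- Apply `pieces` with `G n = {e ∈ r.1 | e meets P}`: for `K` take `e0 ∈ r.1` avoiding `K`, a code
`d` with `roots [r] e0 ∪ K ⊆ Dc d`, a point `z ∈ P` outside the countable set `Dc d`, `e2` agreeing
with `e0` on `Dc d` and containing `z` (`sep_add`), and `D2 = Dc d ∪ {z}`. -/
theorem perfL (M : Set Pc) (hM : Star M) (r : Pc) (hr : r ∈ M) (hpos : Pos r.1) (P : Set Om)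
    (hP : ¬ P.Countable) :
    ∃ r' : Pc, StarAdd M r' ∧ Pos r'.1 ∧ r'.1 ⊆ r.1 ∧ ∀ e ∈ r'.1, ∃ x ∈ P, x ∈ e := by
  obtain ⟨r', h1, h2, h3, _⟩ := pieces M hM (fun _ => {e : Xc | e ∈ r.1 ∧ ∃ x ∈ P, x ∈ e}) (by
    intro _ K
    obtain ⟨e0, he0, hK⟩ := hpos K
    obtain ⟨b1, hb1⟩ := code_roots [r] e0
    obtain ⟨b2, hb2⟩ := code_finset K
    obtain ⟨d, hd1, hd2⟩ := code_union b1 b2
    obtain ⟨z, hzP, hzd⟩ : ∃ z ∈ P, z ∉ Dc d := by
      by_contra hcon
      push Not at hcon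
      exact hP ((Dc_countable d).mono hcon)
    obtain ⟨e2, he2, hze2⟩ := sep_add e0 (Dc d) (Dc_closed d) z hzd
    obtain ⟨b3, hb3⟩ := code_finset {z}
    obtain ⟨c, hc1, hc2⟩ := code_union d b3
    have hin : ∀ e : Xc, e ∈ inter [r] ↔ e ∈ r.1 := by
      intro e
      simp only [inter, Set.mem_ofPred_eq, List.mem_singleton, forall_eq]
    refine ⟨[r], e0, e2, Dc d ∪ {z}, ?_, (hin e0).2 he0, ?_, ⟨c, ?_⟩, ?_, ?_, ?_, ?_⟩
    · intro s hs
      rw [List.mem_singleton] at hs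
      rw [hs]
      exact hr
    · exact (Dc_closed d).union isClosed_singleton
    · rintro x (hx | hx)
      · exact hc1 hx
      · refine hc2 (hb3 ?_)
        rw [Finset.coe_singleton]
        exact hx
    · exact fun x hx => Or.inl (hd1 (hb1 hx))
    · exact fun x hx => he2 x (hd1 (hb1 hx))
    · intro x hx
      have hxd : x ∈ Dc d := hd2 (hb2 (Finset.mem_coe.2 hx))
      exact ⟨Or.inl hxd, fun h => hK x hx ((he2 x hxd).1 h)⟩
    · intro e' he' hag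
      exact ⟨(hin e').1 he', z, hzP, (hag z (Or.inr rfl)).2 hze2⟩)
  refine ⟨r', h1, h2, ?_, ?_⟩
  · intro e he
    obtain ⟨_, hn⟩ := h3 e he
    exact hn.1
  · intro e he
    obtain ⟨_, hn⟩ := h3 e he
    exact hn.2

end SBG9
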