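import Pool.Agent.Lib.SBG9.Defs

/-!
# The product with `V` is basically generated

`W` = image under `enc` of the ultrafilter of all `S ⊆ X × ℕ` with
`{e | {m | (e, m) ∈ S} ∈ V} ∈ U` (`Ultrafilter.bind`).
Base: the sets `S` such that for some `i : I`: for `e ∈ B i` the section
`S_e = {m | (e, m) ∈ S}` is in `V` and all its elements are `≥ lev i e`, and for `e ∉ B i` the
section is empty.
Let `S n → S` in the base, with indices `i n` and `i0`. For `e ∈ B i0` let `m = min S_e`. For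
large `n`, `(e, m) ∈ S n`, so `e ∈ B (i n)` and `lev (i n) e ≤ m`; this also holds for every
subsequence. For `e ∈ B i0` the sections `(S n)_e` converge to `S_e` in `V`. By the property of
`V` for subsequences and a diagonal argument (`X` is countable) there is an infinite `A₁` such
that for every `e ∈ B i0` some cofinite subset `A'` of `A₁` has the intersection of `(S n)_e`,
`n ∈ A'`, in `V`. [To get the diagonal: for every infinite `A` and `e` there is an infinite
`A' ⊆ A` with large intersection (apply the property to the sequence enumerating `A`); iterate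
along an enumeration of `X`, take one element of each.] Apply `hWB` to the enumeration of `A₁`:
infinite `A ⊆ A₁` with the intersection of `B (i n)`, `n ∈ A`, in `U`. For `e` in this
intersection and in `B i0`, all `(S n)_e`, `n ∈ A`, are in `V`, and all but finitely many of
them have large intersection. -/

open Set Filter Topology

namespace SBG9

namespace ProdBAux

theorem ge_mem (V : Ultrafilter ℕ) (hVn : ∀ n : ℕ, ({n}ᶜ : Set ℕ) ∈ V) (k : ℕ) :
    {m : ℕ | k ≤ m} ∈ V := by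
  induction k with
  | zero => exact Filter.mem_of_superset Filter.univ_mem fun m _ => Nat.zero_le m
  | succ k ih =>
    filter_upwards [ih, hVn k] with m h1 h2
    simp only [mem_setOf_eq, mem_compl_iff, mem_singleton_iff] at h1 h2 ⊢
    omega

theorem sub_prop (V : Ultrafilter ℕ)
    (hV : ∀ (M : ℕ → Set ℕ) (L : Set ℕ), (∀ n, M n ∈ V) → L ∈ V →
        (∀ i, ∀ᶠ n in atTop, (i ∈ M n ↔ i ∈ L)) →
          ∃ A : Set ℕ, A.Infinite ∧ (⋂ n ∈ A, M n) ∈ V)
    (N : ℕ → Set ℕ) (L : Set ℕ) (hN : ∀ n, N n ∈ V) (hL : L ∈ V)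
    (hc : ∀ i, ∀ᶠ n in atTop, (i ∈ N n ↔ i ∈ L)) (A : Set ℕ) (hA : A.Infinite) :
    ∃ A' : Set ℕ, A'.Infinite ∧ A' ⊆ A ∧ (⋂ n ∈ A', N n) ∈ V := by
  have hA' : (setOf (fun n => n ∈ A)).Infinite := hA
  have hφ : StrictMono (Nat.nth (fun n => n ∈ A)) := Nat.nth_strictMono hA'
  have hmem : ∀ k, Nat.nth (fun n => n ∈ A) k ∈ A := fun k => Nat.nth_mem_of_infinite hA' k
  obtain ⟨A0, h0, h1⟩ := hV (fun k => N (Nat.nth (fun n => n ∈ A) k)) L (fun k => hN _) hL
    (fun i => hφ.tendsto_atTop.eventually (hc i))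
  refine ⟨Nat.nth (fun n => n ∈ A) '' A0, h0.image hφ.injective.injOn, ?_, ?_⟩
  · rintro _ ⟨k, _, rfl⟩
    exact hmem k
  · rw [biInter_image]
    exact h1

theorem diag {X : Type} [Countable X] [Nonempty X] (V : Ultrafilter ℕ)
    (hV : ∀ (M : ℕ → Set ℕ) (L : Set ℕ), (∀ n, M n ∈ V) → L ∈ V →
        (∀ i, ∀ᶠ n in atTop, (i ∈ M n ↔ i ∈ L)) →
          ∃ A : Set ℕ, A.Infinite ∧ (⋂ n ∈ A, M n) ∈ V)
    (T : Set X) (N : X → ℕ → Set ℕ) (L : X → Set ℕ) (hN : ∀ e ∈ T, ∀ n, N e n ∈ V)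
    (hL : ∀ e ∈ T, L e ∈ V) (hc : ∀ e ∈ T, ∀ i, ∀ᶠ n in atTop, (i ∈ N e n ↔ i ∈ L e)) :
    ∃ a : ℕ → ℕ, StrictMono a ∧ ∀ e ∈ T, ∃ k, (⋂ j ≥ k, N e (a j)) ∈ V := by
  obtain ⟨f, hf⟩ := exists_surjective_nat X
  have step : ∀ (A : {A : Set ℕ // A.Infinite}) (k : ℕ), ∃ A' : {A : Set ℕ // A.Infinite},
      A'.1 ⊆ A.1 ∧ (f k ∈ T → (⋂ n ∈ A'.1, N (f k) n) ∈ V) := by
    intro A k
    by_cases hk : f k ∈ T
    · obtain ⟨A', h1, h2, h3⟩ := sub_prop V hV (N (f k)) (L (f k)) (hN _ hk) (hL _ hk)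
        (hc _ hk) A.1 A.2
      exact ⟨⟨A', h1⟩, h2, fun _ => h3⟩
    · exact ⟨A, subset_rfl, fun h => absurd h hk⟩
  choose g hg1 hg2 using step
  let As : ℕ → {A : Set ℕ // A.Infinite} :=
    fun k => Nat.rec ⟨univ, infinite_univ⟩ (fun k A => g A k) k
  have hs : ∀ k, As (k + 1) = g (As k) k := fun k => rfl
  have hanti : Antitone (fun k => (As k).1) := antitone_nat_of_succ_le fun k => by
    change (As (k + 1)).1 ⊆ (As k).1
    rw [hs]
    exact hg1 _ _
  obtain ⟨a, ha, ha'⟩ := extraction_forall_of_frequently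
    (P := fun k n => n ∈ (As (k + 1)).1)
    (fun k => Nat.frequently_atTop_iff_infinite.2 (As (k + 1)).2)
  refine ⟨a, ha, fun e he => ?_⟩
  obtain ⟨k, rfl⟩ := hf e
  refine ⟨k, ?_⟩
  have h1 := hg2 (As k) k he
  refine Filter.mem_of_superset h1 ?_
  rw [← hs]
  intro m hm
  simp only [mem_iInter] at hm ⊢
  intro j hj
  exact hm (a j) (hanti (Nat.succ_le_succ hj) (ha' j))

end ProdBAux

open ProdBAux

theorem prod_basic {X : Type} [Countable X] {I : Type} (U : Ultrafilter X) (V : Ultrafilter ℕ)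
    (hVn : ∀ n : ℕ, ({n}ᶜ : Set ℕ) ∈ V)
    (hV : ∀ (M : ℕ → Set ℕ) (L : Set ℕ), (∀ n, M n ∈ V) → L ∈ V →
        (∀ i, ∀ᶠ n in atTop, (i ∈ M n ↔ i ∈ L)) →
          ∃ A : Set ℕ, A.Infinite ∧ (⋂ n ∈ A, M n) ∈ V)
    (B : I → Set X) (lev : I → X → ℕ) (hB : ∀ i, B i ∈ U) (hbase : ∀ A ∈ U, ∃ i, B i ⊆ A)
    (hWB : ∀ (i : ℕ → I) (i0 : I),
      (∀ e ∈ B i0, ∃ j n0 : ℕ, ∀ n ≥ n0, e ∈ B (i n) ∧ lev (i n) e ≤ j) →
        ∃ A : Set ℕ, A.Infinite ∧ (⋂ n ∈ A, B (i n)) ∈ U)
    (enc : X × ℕ ≃ ℕ) :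
    ∃ W : Ultrafilter ℕ, Nonprincipal W ∧ BasicallyGenerated W ∧
      ∀ A : Set X, A ∈ U → {n | (enc.symm n).1 ∈ A} ∈ W := by
  classical
  let W : Ultrafilter ℕ := (U.bind fun e => V.map (fun m => (e, m))).map enc
  have hW : ∀ S : Set ℕ, S ∈ W ↔ {e | {m | enc (e, m) ∈ S} ∈ V} ∈ U := fun S => Iff.rfl
  refine ⟨W, ?_, ?_, ?_⟩
  · intro n
    rw [hW]
    refine Filter.mem_of_superset Filter.univ_mem fun e _ => ?_
    refine Filter.mem_of_superset (hVn (enc.symm n).2) fun m hm => ?_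
    simp only [mem_compl_iff, mem_singleton_iff] at hm
    simp only [mem_setOf_eq, mem_compl_iff, mem_singleton_iff]
    intro h
    apply hm
    rw [← h, Equiv.symm_apply_apply]
  · refine ⟨{S | ∃ i : I, ∀ e, (e ∈ B i → {m | enc (e, m) ∈ S} ∈ V ∧
      ∀ m, enc (e, m) ∈ S → lev i e ≤ m) ∧ (e ∉ B i → ∀ m, enc (e, m) ∉ S)}, ?_, ?_, ?_⟩
    · rintro S ⟨i, hi⟩
      rw [hW]
      exact Filter.mem_of_superset (hB i) fun e he => ((hi e).1 he).1
    · intro A hA
      rw [hW] at hA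
      obtain ⟨i, hi⟩ := hbase _ hA
      refine ⟨{n | (enc.symm n).1 ∈ B i ∧ n ∈ A ∧ lev i (enc.symm n).1 ≤ (enc.symm n).2},
        ⟨i, fun e => ⟨fun he => ⟨?_, ?_⟩, ?_⟩⟩, fun n hn => hn.2.1⟩
      · have h1 : {m | enc (e, m) ∈ A} ∈ V := hi he
        filter_upwards [h1, ge_mem V hVn (lev i e)] with m h2 h3
        simp only [mem_setOf_eq, Equiv.symm_apply_apply]
        exact ⟨he, h2, h3⟩
      · intro m hm
        simp only [mem_setOf_eq, Equiv.symm_apply_apply] at hm
        exact hm.2.2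
      · intro he m hm
        simp only [mem_setOf_eq, Equiv.symm_apply_apply] at hm
        exact he hm.1
    · intro S L hS hL ht
      have hconv : ∀ k, ∀ᶠ n in atTop, (k ∈ S n ↔ k ∈ L) := by
        intro k
        have h1 := tendsto_pi_nhds.1 ht k
        rw [nhds_discrete, tendsto_pure] at h1
        filter_upwards [h1] with n hn
        simpa [cantorPt] using hn
      choose i hi using hS
      obtain ⟨i0, hi0⟩ := hL
      have hne : Nonempty X := by
        obtain ⟨e, _⟩ := Ultrafilter.nonempty_of_mem (hB i0)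
        exact ⟨e⟩
      have hcond : ∀ e ∈ B i0, ∃ j n0 : ℕ, ∀ n ≥ n0, e ∈ B (i n) ∧ lev (i n) e ≤ j := by
        intro e he
        obtain ⟨m, hm⟩ := Ultrafilter.nonempty_of_mem ((hi0 e).1 he).1
        obtain ⟨n0, hn0⟩ := eventually_atTop.1 (hconv (enc (e, m)))
        refine ⟨m, n0, fun n hn => ?_⟩
        have h1 : enc (e, m) ∈ S n := (hn0 n hn).2 hm
        have h2 : e ∈ B (i n) := by
          by_contra h3
          exact ((hi n e).2 h3) m h1
        exact ⟨h2, ((hi n e).1 h2).2 m h1⟩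
      obtain ⟨a, ha, ha'⟩ := diag V hV (B i0)
        (fun e n => if {m | enc (e, m) ∈ S n} ∈ V then {m | enc (e, m) ∈ S n}
          else {m | enc (e, m) ∈ L}) (fun e => {m | enc (e, m) ∈ L})
        (fun e he n => by
          by_cases h : {m | enc (e, m) ∈ S n} ∈ V
          · rw [if_pos h]
            exact h
          · rw [if_neg h]
            exact ((hi0 e).1 he).1)
        (fun e he => ((hi0 e).1 he).1)
        (fun e he m => by
          filter_upwards [hconv (enc (e, m))] with n hn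
          by_cases h : {m | enc (e, m) ∈ S n} ∈ V
          · rw [if_pos h]
            exact hn
          · rw [if_neg h]
            exact Iff.rfl)
      obtain ⟨A, hA, hA'⟩ := hWB (fun k => i (a k)) i0 (fun e he => by
        obtain ⟨j, n0, h⟩ := hcond e he
        exact ⟨j, n0, fun n hn => h (a n) (hn.le.trans (ha.id_le n))⟩)
      refine ⟨a '' A, hA.image ha.injective.injOn, ?_⟩
      rw [hW]
      filter_upwards [hA', hB i0] with e he1 he2
      obtain ⟨k0, hk0⟩ := ha' e he2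
      have hsec : ∀ k ∈ A, {m | enc (e, m) ∈ S (a k)} ∈ V := by
        intro k hk
        have h1 : e ∈ B (i (a k)) := by
          simp only [mem_iInter] at he1
          exact he1 k hk
        exact ((hi (a k) e).1 h1).1
      have hfin : (⋂ k ∈ {k | k ∈ A ∧ k < k0}, {m | enc (e, m) ∈ S (a k)}) ∈ (V : Filter ℕ) := by
        rw [Filter.biInter_mem ((finite_Iio k0).subset fun k hk => hk.2)]
        exact fun k hk => hsec k hk.1
      have hfin' : (⋂ k ∈ {k | k ∈ A ∧ k < k0}, {m | enc (e, m) ∈ S (a k)}) ∈ V := hfin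
      filter_upwards [hk0, hfin'] with m hm1 hm2
      simp only [mem_setOf_eq, mem_iInter, mem_image]
      rintro _ ⟨k, hk, rfl⟩
      rcases lt_or_ge k k0 with h | h
      · simp only [mem_iInter] at hm2
        exact hm2 k ⟨hk, h⟩
      · simp only [mem_iInter] at hm1
        have h1 := hm1 k h
        rw [if_pos (hsec k hk)] at h1
        exact h1
  · intro A hA
    rw [hW]
    refine Filter.mem_of_superset hA fun e he => ?_
    refine Filter.mem_of_superset Filter.univ_mem fun m _ => ?_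
    simp only [mem_setOf_eq, Equiv.symm_apply_apply]
    exact he

end SBG9
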