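import Pool.Agent.Lib.SBG9.SacksA

/-!
# Ultrafilters destroyed by Sacks forcing
-/

open Set Filter Topology Cardinal

namespace SBG9

theorem SacksBAux.ext_notPrefix (s : List Bool) {a b : Bool} (h : a ≠ b) :
    ¬ (s ++ [a]) <+: (s ++ [b]) := by
  intro hp
  have h1 := hp.eq_of_length (by simp)
  exact h (by simpa using h1)

/-- The full tree. -/
def SacksBAux.full : PTree where
  nodes := Set.univ
  root := Set.mem_univ _
  down := fun _ _ _ _ => Set.mem_univ _
  perf := fun s _ => ⟨s ++ [true], Set.mem_univ _, s ++ [false], Set.mem_univ _,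
    List.prefix_append _ _, List.prefix_append _ _,
    SacksBAux.ext_notPrefix s (by simp), SacksBAux.ext_notPrefix s (by simp)⟩

/-- The subtree of the nodes comparable with a given node. -/
def SacksBAux.restr (q : PTree) (σ : List Bool) (hσ : σ ∈ q.nodes) : PTree where
  nodes := {τ | τ ∈ q.nodes ∧ (τ <+: σ ∨ σ <+: τ)}
  root := ⟨q.root, Or.inl List.nil_prefix⟩
  down := by
    rintro s t hst ⟨ht, h⟩
    refine ⟨q.down s t hst ht, ?_⟩
    rcases h with h | h
    · exact Or.inl (hst.trans h)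
    · rcases List.prefix_or_prefix_of_prefix hst h with h' | h'
      · exact Or.inl h'
      · exact Or.inr h'
  perf := by
    rintro s ⟨hs, h⟩
    rcases h with h | h
    · obtain ⟨t, ht, u, hu, h1, h2, h3, h4⟩ := q.perf σ hσ
      exact ⟨t, ⟨ht, Or.inr h1⟩, u, ⟨hu, Or.inr h2⟩, h.trans h1, h.trans h2, h3, h4⟩
    · obtain ⟨t, ht, u, hu, h1, h2, h3, h4⟩ := q.perf s hs
      exact ⟨t, ⟨ht, Or.inr (h.trans h1)⟩, u, ⟨hu, Or.inr (h.trans h2)⟩, h1, h2, h3, h4⟩

theorem SacksBAux.restr_le (q : PTree) (σ : List Bool) (hσ : σ ∈ q.nodes) :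
    SacksBAux.restr q σ hσ ≤ q := fun _ h => h.1

theorem SacksBAux.body_mono {p q : PTree} (h : p ≤ q) : body p ⊆ body q :=
  fun _ hx n => h (hx n)

theorem SacksBAux.body_nonempty (p : PTree) : (body p).Nonempty := by
  by_contra h
  rw [Set.not_nonempty_iff_eq_empty] at h
  apply body_uncountable p
  rw [h]
  exact Set.countable_empty

theorem SacksBAux.pre_length (x : Om) (k : ℕ) : (pre x k).length = k := by
  simp [pre]

theorem SacksBAux.pre_eq {q : PTree} {y x : Om} {k : ℕ} (hy : pre y k ∈ q.nodes)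
    (hx : x ∈ body (SacksBAux.restr q (pre y k) hy)) : pre x k = pre y k := by
  have h := (hx k).2
  rcases h with h | h
  · exact h.eq_of_length (by rw [SacksBAux.pre_length, SacksBAux.pre_length])
  · exact (h.eq_of_length (by rw [SacksBAux.pre_length, SacksBAux.pre_length])).symm

theorem SacksBAux.cyl {U : Set Om} (hU : IsOpen U) {x : Om} (hx : x ∈ U) :
    ∃ k, ∀ z : Om, pre z k = pre x k → z ∈ U := by
  rw [isOpen_pi_iff] at hU
  obtain ⟨I, u, hu, hsub⟩ := hU x hx
  refine ⟨I.sup id + 1, fun z hz => hsub ?_⟩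
  intro i hi
  have h1 : i < I.sup id + 1 := Nat.lt_succ_of_le (Finset.le_sup (f := id) hi)
  have h2 : ∀ a ∈ List.range (I.sup id + 1), z a = x a := List.map_inj_left.1 hz
  rw [h2 i (List.mem_range.2 h1)]
  exact (hu i hi).2

/-- Name: `s n` = the trees `t` with `body t ⊆ c n`; condition `p` = the full binary tree.
Let `q`, `B` be as in `SacksIndestructible`.
* If all `n ∈ B` satisfy `Forces q s n`: take `x ∈ body q` and `n ∈ B` with `x ∉ c n` (`h1`); the
complement of `c n` contains all points with the same initial segment of length `k` as `x`; let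
`r` be the set of nodes of `q` comparable with `pre x k` (a perfect tree). There are `r' ≤ r`,
`t ∈ s n`, `r' ≤ t`; a branch of `r'` is in `c n` and extends `pre x k`: contradiction.
* If all `n ∈ B` satisfy `ForcesNot q s n`: take `n ∈ B` and `y ∈ body q` with `y ∈ c n` (`h2`), and
`r` = the nodes of `q` comparable with `pre y k`, where all points extending `pre y k` are in
`c n`; then `r ≤ q` and `r ∈ s n`: contradiction. -/
theorem not_sacks (W : Ultrafilter ℕ) (c : ℕ → Xc) (h1 : ∀ x : Om, {n | x ∉ c n} ∈ W)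
    (h2 : ∀ p : PTree, {n | ∃ x ∈ body p, x ∈ c n} ∈ W) : ¬ SacksIndestructible W := by
  intro hS
  obtain ⟨q, -, B, hB, hcase⟩ := hS (fun n => {t : PTree | body t ⊆ (c n : Set Om)}) SacksBAux.full
  rcases hcase with hF | hN
  · obtain ⟨x, hx⟩ := SacksBAux.body_nonempty q
    obtain ⟨n, hnB, hn⟩ := W.nonempty_of_mem (Filter.inter_mem hB (h1 x))
    have hn' : x ∈ ((c n : Set Om)ᶜ) := hn
    obtain ⟨k, hk⟩ := SacksBAux.cyl (c n).isClopen.isClosed.isOpen_compl hn'
    obtain ⟨r', hr', t, ht, hrt⟩ := hF n hnB (SacksBAux.restr q (pre x k) (hx k))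
      (SacksBAux.restr_le q _ _)
    obtain ⟨z, hz⟩ := SacksBAux.body_nonempty r'
    have h3 : z ∈ (c n : Set Om) := ht (SacksBAux.body_mono hrt hz)
    have h4 := hk z (SacksBAux.pre_eq (hx k) (SacksBAux.body_mono hr' hz))
    exact h4 h3
  · obtain ⟨n, hnB, y, hy, hyn⟩ := W.nonempty_of_mem (Filter.inter_mem hB (h2 q))
    have hn' : y ∈ (c n : Set Om) := hyn
    obtain ⟨k, hk⟩ := SacksBAux.cyl (c n).isClopen.isOpen hn'
    refine hN n hnB (SacksBAux.restr q (pre y k) (hy k)) (SacksBAux.restr_le q _ _)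
      (SacksBAux.restr q (pre y k) (hy k)) ?_ (fun _ h => h)
    intro z hz
    exact hk z (SacksBAux.pre_eq (hy k) hz)

end SBG9
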