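import Pool.Agent.Lib.SBG9.Gen

/-!
# Under CH: an ultrafilter in which convergent sequences have subsequences with large intersection

Apply `generic_exists` with `S = Set ℕ`, `OK a` = the intersection of the list `a` is infinite,
and the tasks `T = Set ℕ ⊕ ((ℕ → Set ℕ) × Set ℕ)` (cardinality continuum = aleph 1):
* `Good (inl A)`: some member of `M'` is contained in `A` or in its complement;
* `Good (inr (M, L))`, for sequences converging pointwise to `L`: either some member of `M'` is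
  contained in the intersection of `M n`, `n` in an infinite set; or the members of `M'` together
  with all `M n` and `L` have a finite intersection which is finite.
-/

open Set Filter Cardinal

namespace SBG9

namespace VUltAux

/-- The intersection of a list is infinite. -/
def OKL (a : List (Set ℕ)) : Prop := {m : ℕ | ∀ r ∈ a, m ∈ r}.Infinite

theorem okl_nil : OKL [] := by
  unfold OKL
  have : {m : ℕ | ∀ r ∈ ([] : List (Set ℕ)), m ∈ r} = Set.univ := by
    ext m; simp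
  rw [this]
  exact Set.infinite_univ

theorem cond_insert (M : Set (Set ℕ)) (A : Set ℕ)
    (h : ∀ b : List (Set ℕ), (∀ r ∈ b, r ∈ M) → ({m : ℕ | ∀ r ∈ b, m ∈ r} ∩ A).Infinite) :
    ∀ a : List (Set ℕ), (∀ r ∈ a, r ∈ insert A M) → OKL a := by
  have key : ∀ a : List (Set ℕ), (∀ r ∈ a, r ∈ insert A M) →
      ∃ b : List (Set ℕ), (∀ r ∈ b, r ∈ M) ∧
        ({m : ℕ | ∀ r ∈ b, m ∈ r} ∩ A) ⊆ {m : ℕ | ∀ r ∈ a, m ∈ r} := by
    intro a
    induction a with
    | nil =>
      intro _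
      refine ⟨[], by simp, ?_⟩
      intro m _
      simp
    | cons x a ih =>
      intro ha
      obtain ⟨b, hb, hsub⟩ := ih (fun r hr => ha r (List.mem_cons_of_mem _ hr))
      rcases ha x (List.mem_cons_self) with hx | hx
      · refine ⟨b, hb, ?_⟩
        intro m hm r hr
        rcases List.mem_cons.1 hr with h1 | h1
        · rw [h1, hx]; exact hm.2
        · exact hsub hm r h1
      · refine ⟨x :: b, ?_, ?_⟩
        · intro r hr
          rcases List.mem_cons.1 hr with h1 | h1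
          · rw [h1]; exact hx
          · exact hb r h1
        · intro m hm r hr
          rcases List.mem_cons.1 hr with h1 | h1
          · rw [h1]; exact hm.1 x List.mem_cons_self
          · exact hsub ⟨fun r hr => hm.1 r (List.mem_cons_of_mem _ hr), hm.2⟩ r h1
  intro a ha
  obtain ⟨b, hb, hsub⟩ := key a ha
  exact (h b hb).mono hsub

/-- The tasks fulfilled by a condition. -/
def Good : (Set ℕ ⊕ ((ℕ → Set ℕ) × Set ℕ)) → Set (Set (Set ℕ))
  | Sum.inl A => {M' | ∃ B ∈ M', B ⊆ A ∨ B ⊆ Aᶜ}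
  | Sum.inr (M, L) => {M' | (∀ i, ∀ᶠ n in atTop, (i ∈ M n ↔ i ∈ L)) →
      (∃ A : Set ℕ, A.Infinite ∧ ∃ B ∈ M', B ⊆ ⋂ n ∈ A, M n) ∨
      ∃ a : List (Set ℕ), (∀ r ∈ a, r ∈ M' ∨ (∃ n, r = M n) ∨ r = L) ∧ ¬ OKL a}

theorem dense_inl (A : Set ℕ) (M : Set (Set ℕ)) (hM : M.Countable)
    (hc : ∀ a : List (Set ℕ), (∀ r ∈ a, r ∈ M) → OKL a) :
    ∃ M' : Set (Set ℕ), M'.Countable ∧ (∀ a : List (Set ℕ), (∀ r ∈ a, r ∈ M') → OKL a) ∧ M ⊆ M' ∧
      M' ∈ Good (Sum.inl A) := by
  by_cases h : ∀ b : List (Set ℕ), (∀ r ∈ b, r ∈ M) → ({m : ℕ | ∀ r ∈ b, m ∈ r} ∩ A).Infinite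
  · exact ⟨insert A M, hM.insert A, cond_insert M A h, Set.subset_insert _ _,
      ⟨A, Set.mem_insert _ _, Or.inl (le_refl _)⟩⟩
  · by_cases h' : ∀ b : List (Set ℕ), (∀ r ∈ b, r ∈ M) →
        ({m : ℕ | ∀ r ∈ b, m ∈ r} ∩ Aᶜ).Infinite
    · exact ⟨insert Aᶜ M, hM.insert Aᶜ, cond_insert M Aᶜ h', Set.subset_insert _ _,
        ⟨Aᶜ, Set.mem_insert _ _, Or.inr (le_refl _)⟩⟩
    · exfalso
      push Not at h h'
      obtain ⟨b, hb, hbf⟩ := h
      obtain ⟨b', hb', hbf'⟩ := h'
      have hok := hc (b ++ b') (by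
        intro r hr
        rcases List.mem_append.1 hr with h1 | h1
        · exact hb r h1
        · exact hb' r h1)
      refine hok ?_
      refine (hbf.union hbf').subset ?_
      intro m hm
      by_cases hA : m ∈ A
      · exact Or.inl ⟨fun r hr => hm r (List.mem_append_left _ hr), hA⟩
      · exact Or.inr ⟨fun r hr => hm r (List.mem_append_right _ hr), hA⟩

theorem dense_inr (M0 : ℕ → Set ℕ) (L : Set ℕ) (M : Set (Set ℕ)) (hM : M.Countable)
    (hc : ∀ a : List (Set ℕ), (∀ r ∈ a, r ∈ M) → OKL a) :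
    ∃ M' : Set (Set ℕ), M'.Countable ∧ (∀ a : List (Set ℕ), (∀ r ∈ a, r ∈ M') → OKL a) ∧ M ⊆ M' ∧
      M' ∈ Good (Sum.inr (M0, L)) := by
  by_cases hconv : ∀ i, ∀ᶠ n in atTop, (i ∈ M0 n ↔ i ∈ L)
  swap
  · exact ⟨M, hM, hc, le_refl _, fun h => absurd h hconv⟩
  by_cases hall : ∀ a : List (Set ℕ), (∀ r ∈ a, r ∈ M ∨ (∃ n, r = M0 n) ∨ r = L) → OKL a
  swap
  · push Not at hall
    obtain ⟨a, ha, hna⟩ := hall
    exact ⟨M, hM, hc, le_refl _, fun _ => Or.inr ⟨a, ha, hna⟩⟩
  have hcount : (M ∪ Set.range M0 ∪ {L}).Countable :=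
    (hM.union (Set.countable_range M0)).union (Set.countable_singleton L)
  obtain ⟨e, he⟩ := hcount.exists_eq_range ⟨L, Or.inr rfl⟩
  have hemem : ∀ j, e j ∈ M ∪ Set.range M0 ∪ {L} := by
    intro j; rw [he]; exact ⟨j, rfl⟩
  have hemem' : ∀ j, e j ∈ M ∨ (∃ n, e j = M0 n) ∨ e j = L := by
    intro j
    rcases hemem j with (h | ⟨n, h⟩) | h
    · exact Or.inl h
    · exact Or.inr (Or.inl ⟨n, h.symm⟩)
    · exact Or.inr (Or.inr h)
  obtain ⟨f, hfP, hfr⟩ := exists_seq_of_forall_finset_exists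
    (fun x : ℕ × ℕ × ℕ => (∀ j ≤ x.1, x.2.1 ∈ e j) ∧ x.2.1 ∈ L ∧ ∀ n' ≥ x.2.2, x.2.1 ∈ M0 n')
    (fun x y : ℕ × ℕ × ℕ => x.1 < y.1 ∧ x.2.1 < y.2.1 ∧ x.2.2 < y.2.2 ∧ y.2.1 ∈ M0 x.2.2)
    (by
      intro s hs
      obtain ⟨k, hk⟩ : ∃ k : ℕ, ∀ x ∈ s, x.1 < k :=
        ⟨s.sup (fun x => x.1) + 1, fun x hx => Nat.lt_succ_of_le
          (Finset.le_sup (f := fun x : ℕ × ℕ × ℕ => x.1) hx)⟩
      obtain ⟨m0, hm0⟩ : ∃ m0 : ℕ, ∀ x ∈ s, x.2.1 < m0 :=
        ⟨s.sup (fun x => x.2.1) + 1, fun x hx => Nat.lt_succ_of_le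
          (Finset.le_sup (f := fun x : ℕ × ℕ × ℕ => x.2.1) hx)⟩
      obtain ⟨n0, hn0⟩ : ∃ n0 : ℕ, ∀ x ∈ s, x.2.2 < n0 :=
        ⟨s.sup (fun x => x.2.2) + 1, fun x hx => Nat.lt_succ_of_le
          (Finset.le_sup (f := fun x : ℕ × ℕ × ℕ => x.2.2) hx)⟩
      have hok := hall (((List.range (k + 1)).map e) ++ (s.toList.map (fun x => M0 x.2.2)) ++ [L])
        (by
          intro r hr
          rcases List.mem_append.1 hr with h1 | h1
          · rcases List.mem_append.1 h1 with h2 | h2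
            · obtain ⟨j, _, rfl⟩ := List.mem_map.1 h2
              exact hemem' j
            · obtain ⟨x, _, rfl⟩ := List.mem_map.1 h2
              exact Or.inr (Or.inl ⟨_, rfl⟩)
          · rw [List.mem_singleton.1 h1]
            exact Or.inr (Or.inr rfl))
      obtain ⟨m, hm, hmgt⟩ := hok.exists_gt m0
      have hmL : m ∈ L := hm L (by simp)
      have hme : ∀ j ≤ k, m ∈ e j := fun j hj => hm (e j) (by
        refine List.mem_append_left _ (List.mem_append_left _ ?_)
        exact List.mem_map.2 ⟨j, List.mem_range.2 (Nat.lt_succ_of_le hj), rfl⟩)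
      have hms : ∀ x ∈ s, m ∈ M0 x.2.2 := fun x hx => hm _ (by
        refine List.mem_append_left _ (List.mem_append_right _ ?_)
        exact List.mem_map.2 ⟨x, Finset.mem_toList.2 hx, rfl⟩)
      obtain ⟨n1, hn1⟩ := Filter.eventually_atTop.1 (hconv m)
      refine ⟨(k, m, max n0 n1), ⟨hme, hmL, ?_⟩, ?_⟩
      · intro n' hn'
        exact (hn1 n' (le_trans (le_max_right _ _) hn')).2 hmL
      · intro x hx
        exact ⟨hk x hx, lt_trans (hm0 x hx) hmgt, lt_of_lt_of_le (hn0 x hx) (le_max_left _ _),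
          hms x hx⟩)
  have hk : StrictMono (fun i => (f i).1) :=
    strictMono_nat_of_lt_succ (fun i => (hfr i (i + 1) (Nat.lt_succ_self i)).1)
  have hm : StrictMono (fun i => (f i).2.1) :=
    strictMono_nat_of_lt_succ (fun i => (hfr i (i + 1) (Nat.lt_succ_self i)).2.1)
  have hn : StrictMono (fun i => (f i).2.2) :=
    strictMono_nat_of_lt_succ (fun i => (hfr i (i + 1) (Nat.lt_succ_self i)).2.2.1)
  set B : Set ℕ := Set.range (fun i => (f i).2.1) with hB
  have hins := cond_insert (M ∪ Set.range M0 ∪ {L}) B (by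
    intro b hb
    -- from some index on, the points lie in all members of the list
    have key : ∃ k : ℕ, ∀ r ∈ b, ∃ j ≤ k, r = e j := by
      clear_value B
      induction b with
      | nil => exact ⟨0, by simp⟩
      | cons x b ih =>
        obtain ⟨k, hk⟩ := ih (fun r hr => hb r (List.mem_cons_of_mem _ hr))
        have hx := hb x List.mem_cons_self
        rw [he] at hx
        obtain ⟨j, hj⟩ := hx
        refine ⟨max k j, ?_⟩
        intro r hr
        rcases List.mem_cons.1 hr with h1 | h1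
        · exact ⟨j, le_max_right _ _, by rw [h1, hj]⟩
        · obtain ⟨j', hj', h2⟩ := hk r h1
          exact ⟨j', le_trans hj' (le_max_left _ _), h2⟩
    obtain ⟨k, hkb⟩ := key
    have hinf : (Set.range (fun i => (f (i + k)).2.1)).Infinite :=
      Set.infinite_range_of_injective
        (fun i j hij => Nat.add_right_cancel (hm.injective hij))
    refine hinf.mono ?_
    rintro _ ⟨i, rfl⟩
    refine ⟨?_, ⟨i + k, rfl⟩⟩
    intro r hr
    obtain ⟨j, hj, rfl⟩ := hkb r hr
    refine (hfP (i + k)).1 j ?_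
    have h1 : i + k ≤ (f (i + k)).1 := hk.id_le (i + k)
    omega)
  refine ⟨insert B (M ∪ Set.range M0 ∪ {L}), hcount.insert B, hins, ?_, ?_⟩
  · intro x hx
    exact Or.inr (Or.inl (Or.inl hx))
  · intro _
    left
    refine ⟨Set.range (fun i => (f i).2.2), Set.infinite_range_of_injective hn.injective,
      B, Set.mem_insert _ _, ?_⟩
    rintro _ ⟨i, rfl⟩
    simp only [Set.mem_iInter]
    rintro _ ⟨j, rfl⟩
    rcases lt_or_ge j i with h | h
    · exact (hfr j i h).2.2.2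
    · exact (hfP i).2.2 _ (hn.monotone h)

end VUltAux

open VUltAux in
theorem exists_V (CH : Cardinal.continuum.{0} = Cardinal.aleph 1) :
    ∃ V : Ultrafilter ℕ, (∀ n : ℕ, ({n}ᶜ : Set ℕ) ∈ V) ∧
      ∀ (M : ℕ → Set ℕ) (L : Set ℕ), (∀ n, M n ∈ V) → L ∈ V →
        (∀ i, ∀ᶠ n in atTop, (i ∈ M n ↔ i ∈ L)) →
          ∃ A : Set ℕ, A.Infinite ∧ (⋂ n ∈ A, M n) ∈ V := by
  have hT : Cardinal.mk (Set ℕ ⊕ ((ℕ → Set ℕ) × Set ℕ)) ≤ Cardinal.aleph 1 := by
    rw [← CH]
    simp
  obtain ⟨N, hN, hgood⟩ := generic_exists hT OKL okl_nil Good (by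
    intro t M hM hc
    rcases t with A | ⟨M0, L⟩
    · exact dense_inl A M hM hc
    · exact dense_inr M0 L M hM hc)
  have hne : (Filter.generate N).NeBot := by
    rw [Filter.generate_neBot_iff]
    intro t htN htf
    have h1 := hN htf.toFinset.toList (by
      intro r hr
      exact htN ((Set.Finite.mem_toFinset htf).1 (Finset.mem_toList.1 hr)))
    obtain ⟨m, hm⟩ := h1.nonempty
    refine ⟨m, ?_⟩
    intro r hr
    exact hm r (Finset.mem_toList.2 ((Set.Finite.mem_toFinset htf).2 hr))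
  set V : Ultrafilter ℕ := Ultrafilter.of (Filter.generate N) with hV
  have hNV : ∀ B ∈ N, B ∈ V := fun B hB =>
    Ultrafilter.of_le (Filter.generate N) (Filter.GenerateSets.basic hB)
  have hfin : ∀ X ∈ V, X.Infinite := by
    intro X hX hXf
    obtain ⟨M', hM'N, _, B, hB, hBX⟩ := hgood (Sum.inl X)
    rcases hBX with h | h
    · have h1 := hN [B] (by
        intro r hr
        rw [List.mem_singleton.1 hr]
        exact hM'N hB)
      exact h1 (hXf.subset (fun m hm => h (hm B (by simp))))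
    · have h2 : Xᶜ ∈ V := Filter.mem_of_superset (hNV B (hM'N hB)) h
      have h3 : X ∩ Xᶜ ∈ V := Filter.inter_mem hX h2
      rw [Set.inter_compl_self] at h3
      exact V.empty_notMem h3
  have hlist : ∀ a : List (Set ℕ), (∀ r ∈ a, r ∈ V) → {m : ℕ | ∀ r ∈ a, m ∈ r} ∈ V := by
    intro a
    induction a with
    | nil =>
      intro _
      have : {m : ℕ | ∀ r ∈ ([] : List (Set ℕ)), m ∈ r} = Set.univ := by
        ext m; simp
      rw [this]
      exact Filter.univ_mem
    | cons x a ih =>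
      intro ha
      have h1 := ih (fun r hr => ha r (List.mem_cons_of_mem _ hr))
      refine Filter.mem_of_superset (Filter.inter_mem (ha x List.mem_cons_self) h1) ?_
      rintro m ⟨hm1, hm2⟩ r hr
      rcases List.mem_cons.1 hr with h | h
      · rw [h]; exact hm1
      · exact hm2 r h
  refine ⟨V, ?_, ?_⟩
  · intro n
    rw [Ultrafilter.compl_mem_iff_notMem]
    intro h
    exact hfin _ h (Set.finite_singleton n)
  · intro M L hM hL hconv
    obtain ⟨M', hM'N, _, hg⟩ := hgood (Sum.inr (M, L))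
    rcases hg hconv with ⟨A, hA, B, hB, hBA⟩ | ⟨a, ha, hna⟩
    · exact ⟨A, hA, Filter.mem_of_superset (hNV B (hM'N hB)) hBA⟩
    · exfalso
      apply hna
      refine hfin _ (hlist a ?_)
      intro r hr
      rcases ha r hr with h | ⟨n, rfl⟩ | rfl
      · exact hNV r (hM'N h)
      · exact hM n
      · exact hL

end SBG9
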