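import Pool.Agent.Lib.SBG9.PIntA
import Pool.Agent.Lib.SBG9.PIntB
import Pool.Agent.Lib.SBG9.PIntC
import Pool.Agent.Lib.SBG9.BasicL
import Pool.Agent.Lib.SBG9.VUlt
import Pool.Agent.Lib.SBG9.ProdB
import Pool.Agent.Lib.SBG9.SacksB

/-!
# Assembly
-/

open Set Filter Topology

namespace SBG9

/-- The hypothesis of the basicness step. -/
def Hyp (a : ℕ → List Pc) (a0 : List Pc) : Prop :=
  ∀ e ∈ inter a0, ∃ j n0 : ℕ, ∀ n ≥ n0, e ∈ inter (a n) ∧ ∃ z, roots (a n) e ⊆ Dj j z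

/-- The tasks. -/
abbrev Task := Set Xc ⊕ (PTree ⊕ ((ℕ → List Pc) × List Pc))

/-- The conditions which take care of a task. -/
def Good : Task → Set (Set Pc)
  | .inl A => {M | ∃ r ∈ M, r.1 ⊆ A ∨ r.1 ⊆ Aᶜ}
  | .inr (.inl p) => {M | ∃ r ∈ M, ∀ e ∈ r.1, ∃ x ∈ body p, x ∈ e}
  | .inr (.inr t) => {M | (∃ A : Set ℕ, A.Infinite ∧ ∃ r ∈ M, ∀ n ∈ A, r.1 ⊆ inter (t.1 n)) ∨
      ¬ Hyp t.1 t.2 ∨ ¬ ∃ M'' : Set Pc, M''.Countable ∧ Cond M'' ∧ M ⊆ M'' ∧
        (∀ n, ∀ s ∈ t.1 n, s ∈ M'') ∧ ∀ s ∈ t.2, s ∈ M''}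

theorem Cond.star {M : Set Pc} (h : Cond M) : Star M := fun a ha => (h a ha).1

theorem step (M : Set Pc) (hc : M.Countable) (hM : Cond M) :
    ∃ (M₁ : Set Pc) (r : Pc), M ⊆ M₁ ∧ M₁.Countable ∧ Star M₁ ∧ r ∈ M₁ ∧ Pos r.1 ∧
      AlmostIn r.1 M₁ := by
  obtain ⟨r, h1, h2, h3⟩ := exists_PI M hc hM
  refine ⟨insert r M, r, subset_insert r M, hc.insert r, star_insert M hM.star r h1,
    mem_insert r M, h2, ?_⟩
  intro s hs
  rcases hs with rfl | hs
  · exact ⟨∅, fun e he _ => he⟩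
  · exact h3 s hs

theorem add_piece (M₁ : Set Pc) (hc : M₁.Countable) (hS : Star M₁) (R : Set Xc)
    (hal : AlmostIn R M₁) (r' : Pc) (h1 : StarAdd M₁ r') (h2 : Pos r'.1) (h3 : r'.1 ⊆ R) :
    (insert r' M₁).Countable ∧ Cond (insert r' M₁) := by
  refine ⟨hc.insert r', cond_of_almost _ (star_insert M₁ hS r' h1) r'.1 h2 ?_⟩
  intro s hs
  rcases hs with rfl | hs
  · exact ⟨∅, fun e he _ => he⟩
  · obtain ⟨K, hK⟩ := hal s hs
    exact ⟨K, fun e he hx => hK e (h3 he) hx⟩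

theorem dense_step (t : Task) (M : Set Pc) (hc : M.Countable) (hM : Cond M) :
    ∃ M' : Set Pc, M'.Countable ∧ Cond M' ∧ M ⊆ M' ∧ M' ∈ Good t := by
  rcases t with A | p | t
  · obtain ⟨M₁, r, h1, h2, h3, h4, h5, h6⟩ := step M hc hM
    obtain ⟨r', g1, g2, g3, g4⟩ := split M₁ h3 r h4 h5 A
    obtain ⟨k1, k2⟩ := add_piece M₁ h2 h3 r.1 h6 r' g1 g2 g3
    exact ⟨insert r' M₁, k1, k2, h1.trans (subset_insert r' M₁), r', mem_insert r' M₁, g4⟩
  · obtain ⟨M₁, r, h1, h2, h3, h4, h5, h6⟩ := step M hc hM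
    obtain ⟨r', g1, g2, g3, g4⟩ := perfL M₁ h3 r h4 h5 (body p) (body_uncountable p)
    obtain ⟨k1, k2⟩ := add_piece M₁ h2 h3 r.1 h6 r' g1 g2 g3
    exact ⟨insert r' M₁, k1, k2, h1.trans (subset_insert r' M₁), r', mem_insert r' M₁, g4⟩
  · by_cases hH : Hyp t.1 t.2
    · by_cases hE : ∃ M'' : Set Pc, M''.Countable ∧ Cond M'' ∧ M ⊆ M'' ∧
        (∀ n, ∀ s ∈ t.1 n, s ∈ M'') ∧ ∀ s ∈ t.2, s ∈ M''
      · obtain ⟨M'', q1, q2, q3, q4, q5⟩ := hE
        obtain ⟨M₁, r, h1, h2, h3, h4, h5, h6⟩ := step M'' q1 q2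
        obtain ⟨A, hA, r', g1, g2, g3, g4⟩ := basicL M₁ h2 h3 r h4 h5 h6 t.1 t.2
          (fun n s hs => h1 (q4 n s hs)) (fun s hs => h1 (q5 s hs)) hH
        obtain ⟨k1, k2⟩ := add_piece M₁ h2 h3 r.1 h6 r' g1 g2 g3
        exact ⟨insert r' M₁, k1, k2, (q3.trans h1).trans (subset_insert r' M₁),
          Or.inl ⟨A, hA, r', mem_insert r' M₁, g4⟩⟩
      · exact ⟨M, hc, hM, Subset.rfl, Or.inr (Or.inr hE)⟩
    · exact ⟨M, hc, hM, Subset.rfl, Or.inr (Or.inl hH)⟩

theorem ok_nil : OK ([] : List Pc) := by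
  have hin : inter ([] : List Pc) = univ := by
    ext e
    simp [inter]
  refine ⟨?_, ?_⟩
  · intro e _ e'' _ c
    exact ⟨e'', by rw [hin]; exact mem_univ _, fun x _ => Iff.rfl⟩
  · intro K
    exact ⟨⊥, by rw [hin]; exact mem_univ _, fun x _ h => h⟩

theorem mk_Pc : Cardinal.mk Pc ≤ Cardinal.continuum := by
  have := countable_Xc
  have h1 : Cardinal.mk (Set Xc) ≤ Cardinal.continuum := by
    rw [Cardinal.mk_set, ← Cardinal.two_power_aleph0]
    exact Cardinal.power_le_power_left two_ne_zero Cardinal.mk_le_aleph0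
  have h2 : Cardinal.mk Om = Cardinal.continuum := by
    simp [Om]
  have h3 : Cardinal.mk Code ≤ Cardinal.continuum := by
    simp [Code, h2]
  have h4 : Cardinal.mk (Xc → Code) ≤ Cardinal.continuum := by
    rw [← Cardinal.power_def]
    calc Cardinal.mk Code ^ Cardinal.mk Xc ≤ Cardinal.continuum ^ Cardinal.aleph0 := by
          refine (Cardinal.power_le_power_right h3).trans ?_
          exact Cardinal.power_le_power_left Cardinal.continuum_ne_zero Cardinal.mk_le_aleph0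
      _ = Cardinal.continuum := Cardinal.continuum_power_aleph0
  have : Cardinal.mk Pc = Cardinal.mk (Set Xc) * Cardinal.mk (Xc → Code) := by
    simp [Pc]
  rw [this]
  calc Cardinal.mk (Set Xc) * Cardinal.mk (Xc → Code)
      ≤ Cardinal.continuum * Cardinal.continuum := mul_le_mul' h1 h4
    _ = Cardinal.continuum := Cardinal.continuum_mul_self

theorem mk_ListPc : Cardinal.mk (List Pc) ≤ Cardinal.continuum := by
  refine (Cardinal.mk_list_le_max Pc).trans ?_
  exact max_le Cardinal.aleph0_le_continuum mk_Pc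

theorem mk_Task : Cardinal.mk Task ≤ Cardinal.continuum := by
  have := countable_Xc
  have h1 : Cardinal.mk (Set Xc) ≤ Cardinal.continuum := by
    rw [Cardinal.mk_set, ← Cardinal.two_power_aleph0]
    exact Cardinal.power_le_power_left two_ne_zero Cardinal.mk_le_aleph0
  have h2 : Cardinal.mk (ℕ → List Pc) ≤ Cardinal.continuum := by
    rw [← Cardinal.power_def, Cardinal.mk_nat]
    exact (Cardinal.power_le_power_right mk_ListPc).trans
      Cardinal.continuum_power_aleph0.le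
  have h3 : Cardinal.mk ((ℕ → List Pc) × List Pc) ≤ Cardinal.continuum := by
    rw [Cardinal.mk_prod, Cardinal.lift_id, Cardinal.lift_id]
    calc Cardinal.mk (ℕ → List Pc) * Cardinal.mk (List Pc)
        ≤ Cardinal.continuum * Cardinal.continuum := mul_le_mul' h2 mk_ListPc
      _ = Cardinal.continuum := Cardinal.continuum_mul_self
  have h4 : Cardinal.mk (PTree ⊕ ((ℕ → List Pc) × List Pc)) ≤ Cardinal.continuum := by
    rw [Cardinal.mk_sum, Cardinal.lift_id, Cardinal.lift_id]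
    calc Cardinal.mk PTree + Cardinal.mk ((ℕ → List Pc) × List Pc)
        ≤ Cardinal.continuum + Cardinal.continuum := add_le_add mk_PTree_le h3
      _ = Cardinal.continuum := Cardinal.continuum_add_self
  show Cardinal.mk (Set Xc ⊕ (PTree ⊕ ((ℕ → List Pc) × List Pc))) ≤ Cardinal.continuum
  rw [Cardinal.mk_sum, Cardinal.lift_id, Cardinal.lift_id]
  calc Cardinal.mk (Set Xc) + Cardinal.mk (PTree ⊕ ((ℕ → List Pc) × List Pc))
      ≤ Cardinal.continuum + Cardinal.continuum := add_le_add h1 h4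
    _ = Cardinal.continuum := Cardinal.continuum_add_self

theorem exists_generic (CH : Cardinal.continuum.{0} = Cardinal.aleph 1) :
    ∃ N : Set Pc, Cond N ∧ ∀ t : Task, ∃ M' : Set Pc, M' ⊆ N ∧ M'.Countable ∧ M' ∈ Good t :=
  generic_exists (mk_Task.trans CH.le) OK ok_nil Good
    (fun t M hc hM => dense_step t M hc hM)

/-- The filter generated by a condition. -/
def genFilter (N : Set Pc) : Filter Xc where
  sets := {A | ∃ a : List Pc, (∀ r ∈ a, r ∈ N) ∧ inter a ⊆ A}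
  univ_sets := ⟨[], fun r hr => by simp at hr, subset_univ _⟩
  sets_of_superset := by
    rintro A B ⟨a, h1, h2⟩ hAB
    exact ⟨a, h1, h2.trans hAB⟩
  inter_sets := by
    rintro A B ⟨a, h1, h2⟩ ⟨b, g1, g2⟩
    refine ⟨a ++ b, ?_, ?_⟩
    · intro r hr
      rcases List.mem_append.1 hr with hr | hr
      · exact h1 r hr
      · exact g1 r hr
    · rw [inter_append]
      exact inter_subset_inter h2 g2

theorem mem_genFilter (N : Set Pc) (A : Set Xc) :
    A ∈ genFilter N ↔ ∃ a : List Pc, (∀ r ∈ a, r ∈ N) ∧ inter a ⊆ A := Iff.rfl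

theorem inter_single (r : Pc) : inter [r] = r.1 := by
  ext e
  simp [inter]

theorem main (CH : Cardinal.continuum.{0} = Cardinal.aleph 1) :
    ∃ U : Ultrafilter ℕ, Nonprincipal U ∧ BasicallyGenerated U ∧ ¬ SacksIndestructible U := by
  obtain ⟨N, hN, hG⟩ := exists_generic CH
  have hmem : ∀ r ∈ N, ∀ A : Set Xc, r.1 ⊆ A → A ∈ genFilter N := by
    intro r hr A hA
    refine ⟨[r], fun s hs => ?_, ?_⟩
    · rw [List.mem_singleton.1 hs]
      exact hr
    · rw [inter_single]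
      exact hA
  have hne : ∀ A ∈ genFilter N, ∀ K : Finset Om, ∃ e ∈ A, ∀ x ∈ K, x ∉ e := by
    rintro A ⟨a, h1, h2⟩ K
    obtain ⟨e, he, hx⟩ := (hN a h1).2 K
    exact ⟨e, h2 he, hx⟩
  have hult : ∀ A : Set Xc, Aᶜ ∉ genFilter N ↔ A ∈ genFilter N := by
    intro A
    constructor
    · intro h
      obtain ⟨M', h1, _, r, hr, h3⟩ := hG (Sum.inl A)
      rcases h3 with h3 | h3
      · exact hmem r (h1 hr) A h3
      · exact absurd (hmem r (h1 hr) _ h3) h
    · intro h h'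
      obtain ⟨e, he, _⟩ := hne _ (inter_mem h h') ∅
      exact he.2 he.1
  let U : Ultrafilter Xc := Ultrafilter.ofComplNotMemIff (genFilter N) hult
  have hU : ∀ A : Set Xc, A ∈ U ↔ A ∈ genFilter N := fun A => Iff.rfl
  have hx : ∀ x : Om, {e : Xc | x ∉ e} ∈ U := by
    intro x
    rw [hU, ← hult]
    intro h
    obtain ⟨e, he, hx⟩ := hne _ h {x}
    exact he (hx x (by simp))
  have hp : ∀ p : PTree, {e : Xc | ∃ x ∈ body p, x ∈ e} ∈ U := by
    intro p
    obtain ⟨M', h1, _, r, hr, h3⟩ := hG (Sum.inr (Sum.inl p))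
    exact hmem r (h1 hr) _ (fun e he => h3 e he)
  obtain ⟨V, hVn, hV⟩ := exists_V CH
  have hlev : ∀ (a : List Pc) (e : Xc), ∃ j : ℕ, ∃ z, roots a e ⊆ Dj j z := by
    intro a e
    obtain ⟨b, hb⟩ := code_roots a e
    exact ⟨b.1, b.2, hb⟩
  choose lev hlev using hlev
  have := countable_Xc
  obtain ⟨enc⟩ : Nonempty (Xc × ℕ ≃ ℕ) := nonempty_equiv_of_countable
  obtain ⟨W, hW1, hW2, hW3⟩ := prod_basic (X := Xc) (I := {a : List Pc // ∀ r ∈ a, r ∈ N}) U V
    hVn hV (fun a => inter a.1) (fun a e => lev a.1 e)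
    (fun a => ⟨a.1, a.2, Subset.rfl⟩)
    (by
      rintro A ⟨a, h1, h2⟩
      exact ⟨⟨a, h1⟩, h2⟩)
    (by
      intro i i0 hyp
      have hH : Hyp (fun n => (i n).1) i0.1 := by
        intro e he
        obtain ⟨j, n0, hj⟩ := hyp e he
        refine ⟨j, n0, fun n hn => ⟨(hj n hn).1, ?_⟩⟩
        obtain ⟨z, hz⟩ := hlev (i n).1 e
        obtain ⟨w, hw⟩ := Dj_mono_level _ _ (hj n hn).2 z
        exact ⟨w, hz.trans hw⟩
      obtain ⟨M', h1, h2, h3⟩ := hG (Sum.inr (Sum.inr (fun n => (i n).1, i0.1)))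
      rcases h3 with ⟨A, hA, r, hr, hr2⟩ | h3 | h3
      · refine ⟨A, hA, hmem r (h1 hr) _ ?_⟩
        intro e he
        simp only [mem_iInter]
        exact fun n hn => hr2 n hn he
      · exact absurd hH h3
      · exfalso
        apply h3
        refine ⟨M' ∪ ((⋃ n, {s | s ∈ (i n).1}) ∪ {s | s ∈ i0.1}), ?_, ?_, subset_union_left, ?_, ?_⟩
        · refine h2.union ((countable_iUnion fun n => ?_).union ?_)
          · exact (List.finite_toSet _).countable
          · exact (List.finite_toSet _).countable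
        · intro a ha
          apply hN
          intro r hr
          rcases ha r hr with h | h | h
          · exact h1 h
          · obtain ⟨n, hn⟩ := mem_iUnion.1 h
            exact (i n).2 r hn
          · exact i0.2 r h
        · intro n s hs
          exact Or.inr (Or.inl (mem_iUnion.2 ⟨n, hs⟩))
        · intro s hs
          exact Or.inr (Or.inr hs))
    enc
  refine ⟨W, hW1, hW2, not_sacks W (fun n => (enc.symm n).1) ?_ ?_⟩
  · intro x
    exact hW3 _ (hx x)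
  · intro p
    exact hW3 _ (hp p)

end SBG9
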