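import Pool.Agent.Lib.GITZ.CHa
import Pool.Agent.Lib.GITZ.CHb
import Pool.Agent.Lib.SBG9.Main

/-!
# SBG9.Model: the form of CH inside `(ZFSet, ∈)` implies `𝔠 = ℵ_1`
-/

set_option autoImplicit false

namespace SBG9

open Pool.Agent.Lib.BVM Pool.Agent.Lib.GITZ
open Pool.Agent.Lib.GITZ.ZFAux Cardinal

theorem continuum_of_CHs (h : CHs (fun x y : ZFSet.{0} => x ∈ y)) :
    Cardinal.continuum.{0} = Cardinal.aleph 1 := by
  obtain ⟨T, hT1, hT2⟩ := h ww RR isOmega_ww isReals_RR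
  have h1 : #(ℕ → ℕ) ≤ ℵ_ 1 := by
    refine CHaAux.card_le (fun x y => App EE T (cf x) (cf y)) ?_ ?_
    · intro x y
      exact hT1 _ _ ((mem_RR _).2 ⟨x, rfl⟩) ((mem_RR _).2 ⟨y, rfl⟩)
    · intro y
      obtain ⟨f, hf1, hf2⟩ := hT2 (cf y) ((mem_RR _).2 ⟨y, rfl⟩)
      have h3 : ∀ x : {x | App EE T (cf x) (cf y)}, ∃ n : ℕ, App EE f (nm n) (cf x) := by
        rintro ⟨x, hx⟩
        obtain ⟨n, hn, hn2⟩ := hf2 (cf x) ((mem_RR _).2 ⟨x, rfl⟩) hx
        obtain ⟨k, rfl⟩ := (mem_ww n).1 hn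
        exact ⟨k, hn2⟩
      choose g hg using h3
      refine Set.countable_coe_iff.1 (Function.Injective.countable (f := g) ?_)
      intro a b hab
      have h4 := hg b
      rw [← hab] at h4
      exact Subtype.ext (cf_inj (hf1 _ _ _ (hg a) h4))
  refine le_antisymm ?_ Cardinal.aleph_one_le_continuum
  have h3 : #(ℕ → ℕ) = 𝔠 := by simp
  rw [← h3]
  exact h1

end SBG9
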