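import Pool.Agent.Lib.SBG9.Pieces

/-!
# Pseudointersections
-/

open Set Filter Topology

namespace SBG9

/-- Pseudointersection. Let `l n` be finite lists of members of `M` such that every member of `M`
is in `l m` for all large `m`. Apply `pieces` with `G n = inter (l n)`: for `K` take
`e0 ∈ inter (l n)` avoiding `K` (`(hM (l n) _).2`), a code `d` with
`roots (l n) e0 ∪ K ⊆ Dc d`, `e2 = e0`, `D2 = Dc d`. -/
theorem exists_PI (M : Set Pc) (hc : M.Countable) (hM : Cond M) :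
    ∃ r : Pc, StarAdd M r ∧ Pos r.1 ∧ AlmostIn r.1 M := by
  obtain ⟨l, hl1, hl2⟩ : ∃ l : ℕ → List Pc, (∀ n, ∀ s ∈ l n, s ∈ M) ∧
      ∀ s ∈ M, ∃ N : ℕ, ∀ m ≥ N, s ∈ l m := by
    rcases M.eq_empty_or_nonempty with hE | hne
    · subst hE
      exact ⟨fun _ => [], fun n s hs => by simp at hs, fun s hs => absurd hs (by simp)⟩
    · obtain ⟨f, hf⟩ := hc.exists_eq_range hne
      refine ⟨fun n => (List.range (n + 1)).map f, fun n s hs => ?_, fun s hs => ?_⟩
      · obtain ⟨i, _, rfl⟩ := List.mem_map.1 hs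
        rw [hf]
        exact mem_range_self i
      · rw [hf] at hs
        obtain ⟨i, rfl⟩ := hs
        exact ⟨i, fun m hm => List.mem_map.2 ⟨i, List.mem_range.2 (by omega), rfl⟩⟩
  obtain ⟨r, h1, h2, _, h4⟩ := pieces M (fun a ha e he => (hM a ha).1 e he)
    (fun n => inter (l n)) (by
      intro n K
      obtain ⟨e0, he0, hK⟩ := (hM (l n) (hl1 n)).2 K
      obtain ⟨b1, hb1⟩ := code_roots (l n) e0
      obtain ⟨b2, hb2⟩ := code_finset K
      obtain ⟨d, hd1, hd2⟩ := code_union b1 b2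
      exact ⟨l n, e0, e0, Dc d, hl1 n, he0, Dc_closed d, ⟨d, Subset.rfl⟩, hb1.trans hd1,
        fun x _ => Iff.rfl, fun x hx => ⟨hd2 (hb2 hx), hK x hx⟩, fun e' he' _ => he'⟩)
  refine ⟨r, h1, h2, fun s hs => ?_⟩
  obtain ⟨N, hN⟩ := hl2 s hs
  obtain ⟨K, hK⟩ := h4 N
  refine ⟨K, fun e he hx => ?_⟩
  obtain ⟨m, hm, hmem⟩ := hK e he hx
  exact hmem s (hN m hm)

end SBG9
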