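import Pool.Agent.Lib.SBG9.StarB

/-!
# Unions of point-finite sequences of pieces
-/

open Set Filter Topology

namespace SBG9

namespace PiecesAux

/-- Cantor space is uncountable. -/
theorem aleph0_lt_Om : Cardinal.aleph0 < Cardinal.mk (ℕ → Bool) := by
  have h5 : Cardinal.mk (ℕ → Bool) = 2 ^ Cardinal.aleph0 := by simp
  rw [h5]
  exact Cardinal.cantor _

/-- A countable subset of Cantor space is not everything. -/
theorem exists_not_mem (D : Set Om) (hD : D.Countable) : ∃ z : Om, z ∉ D := by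
  by_contra hcon
  push Not at hcon
  have h1 : (Set.univ : Set Om).Countable := hD.mono (fun x _ => hcon x)
  have h2 : Countable Om := Set.countable_univ_iff.mp h1
  have h3 : Cardinal.mk (ℕ → Bool) ≤ Cardinal.aleph0 := Cardinal.mk_le_aleph0_iff.mpr h2
  exact absurd h3 (not_le.mpr aleph0_lt_Om)

/-- The data of one stage. -/
structure Dat (M : Set Pc) (G : Set Xc) (K : Finset Om) where
  a : List Pc
  e0 : Xc
  e2 : Xc
  D : Set Om
  z : Om
  en : ℕ → Om
  ha : ∀ s ∈ a, s ∈ M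
  he0 : e0 ∈ inter a
  hD : IsClosed D
  hc : ∃ c : Code, D ⊆ Dc c
  hr : roots a e0 ⊆ D
  hag : Agree (roots a e0) e2 e0
  hK : ∀ x ∈ K, x ∉ e2
  hG : ∀ e' ∈ inter a, Agree D e' e2 → e' ∈ G
  hzD : z ∈ D
  hz : z ∈ e2
  hen : ∀ x ∈ D, ∃ i, en i = x

theorem exists_dat (M : Set Pc) (G : Set Xc) (K : Finset Om)
    (h : ∃ (a : List Pc) (e0 e2 : Xc) (D2 : Set Om),
      (∀ s ∈ a, s ∈ M) ∧ e0 ∈ inter a ∧ IsClosed D2 ∧ (∃ c : Code, D2 ⊆ Dc c) ∧
      roots a e0 ⊆ D2 ∧ Agree (roots a e0) e2 e0 ∧ (∀ x ∈ K, x ∈ D2 ∧ x ∉ e2) ∧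
      ∀ e' ∈ inter a, Agree D2 e' e2 → e' ∈ G) : Nonempty (Dat M G K) := by
  obtain ⟨a, e0, e2, D2, ha, he0, hD2, ⟨c, hc⟩, hr, hag, hK, hG⟩ := h
  have hcount : D2.Countable := (Dc_countable c).mono hc
  obtain ⟨z, hz⟩ := exists_not_mem D2 hcount
  obtain ⟨e2', h1, h2⟩ := sep_add e2 D2 hD2 z hz
  have hDc : (insert z D2).Countable := hcount.insert z
  obtain ⟨en, hen⟩ := hDc.exists_eq_range ⟨z, Set.mem_insert z D2⟩
  obtain ⟨d, hd⟩ := code_finset {z}
  obtain ⟨b, hb1, hb2⟩ := code_union c d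
  refine ⟨⟨a, e0, e2', insert z D2, z, en, ha, he0, ?_, ⟨b, ?_⟩, ?_, ?_, ?_, ?_, ?_, h2, ?_⟩⟩
  · rw [Set.insert_eq]
    exact isClosed_singleton.union hD2
  · intro x hx
    rcases hx with hx | hx
    · subst hx
      exact hb2 (hd (by simp))
    · exact hb1 (hc hx)
  · exact fun x hx => Set.mem_insert_of_mem _ (hr hx)
  · intro x hx
    exact (h1 x (hr hx)).trans (hag x hx)
  · intro x hx hxe
    exact (hK x hx).2 ((h1 x (hK x hx).1).mp hxe)
  · intro e' he' hag'
    refine hG e' he' ?_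
    intro x hx
    exact (hag' x (Set.mem_insert_of_mem _ hx)).trans (h1 x hx)
  · exact Set.mem_insert z D2
  · intro x hx
    rw [hen] at hx
    exact hx

open Classical in
/-- The finite set of the first `n` points of the enumerations in a list. -/
noncomputable def KK (n : ℕ) (L : List (ℕ → Om)) : Finset Om :=
  (L.flatMap (fun en => (List.range n).map en)).toFinset

theorem mem_KK (n : ℕ) (L : List (ℕ → Om)) (en : ℕ → Om) (hen : en ∈ L) (i : ℕ) (hi : i < n) :
    en i ∈ KK n L := by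
  classical
  simp only [KK, List.mem_toFinset, List.mem_flatMap, List.mem_map, List.mem_range]
  exact ⟨en, hen, i, hi, rfl⟩

/-- The history of the construction: the list of the enumerations of the earlier stages. -/
noncomputable def hist {M : Set Pc} {G : ℕ → Set Xc}
    (dat : ∀ (n : ℕ) (K : Finset Om), Dat M (G n) K) : ℕ → List (ℕ → Om)
  | 0 => []
  | n + 1 => (dat n (KK n (hist dat n))).en :: hist dat n

theorem mem_hist {M : Set Pc} {G : ℕ → Set Xc}
    (dat : ∀ (n : ℕ) (K : Finset Om), Dat M (G n) K) (m n : ℕ) (h : m < n) :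
    (dat m (KK m (hist dat m))).en ∈ hist dat n := by
  induction n with
  | zero => exact absurd h (Nat.not_lt_zero m)
  | succ n ih =>
    rcases Nat.lt_succ_iff_lt_or_eq.mp h with h1 | h1
    · exact List.mem_cons_of_mem _ (ih h1)
    · subst h1
      simp only [hist]
      exact List.mem_cons_self

end PiecesAux

open PiecesAux in
/-- The basic construction. Choose recursively, for `n = 0, 1, 2, ...`, finite sets `K n` and
data `a n, e0 n, e2 n, D2 n` given by `h n (K n)`, a point `z n ∉ D2 n` (`D2 n` is countable, as a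
subset of some `Dc c`), a clopen set `e2' n` agreeing with `e2 n` on `D2 n` with `z n ∈ e2' n`
(`sep_add`), and put `D2' n = D2 n ∪ {z n}` (closed, countable), where `K n` contains the first
`n` points of fixed enumerations of `D2' m`, `m < n`. Let `F n = e2' n ∩ D2' n`. As
`K n ⊆ D2 n` is disjoint from `e2 n`, `F n ∩ K n = ∅`; hence every point is in `F n` for only
finitely many `n`. Let `Z n = inter (a n) ∩ {e | Agree (D2' n) e (e2' n)}`, `R = ⋃ Z n`, and for
`e ∈ R` let `ρ e` be a code with `roots (a n) e ∪ D2' n ⊆ Dc (ρ e)` for some `n` with `e ∈ Z n`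
(`code_roots`, `code_union`, `code_finset`).
* `StarAdd M (R, ρ)`: `starAdd_of_local`.
* `Pos R`: given `K'` choose `n` with `F n` disjoint from `K'`; by `sep_avoid` there is `e'''`
agreeing with `e2' n` on `D2' n` and avoiding `K'`; it agrees with `e0 n` on
`roots (a n) (e0 n) ⊆ D2 n`; `hM` for `a n` and `e0 n` gives `e' ∈ inter (a n)` agreeing with
`e'''` on `Dc c ⊇ D2' n ∪ K'`, so `e' ∈ Z n` avoids `K'`.
* last clause: `K = {z 0, ..., z (n-1)}`: `e ∈ Z m` contains `z m`, so `m ≥ n`. -/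
theorem pieces (M : Set Pc) (hM : Star M) (G : ℕ → Set Xc)
    (h : ∀ (n : ℕ) (K : Finset Om), ∃ (a : List Pc) (e0 e2 : Xc) (D2 : Set Om),
      (∀ s ∈ a, s ∈ M) ∧ e0 ∈ inter a ∧ IsClosed D2 ∧ (∃ c : Code, D2 ⊆ Dc c) ∧
      roots a e0 ⊆ D2 ∧ Agree (roots a e0) e2 e0 ∧ (∀ x ∈ K, x ∈ D2 ∧ x ∉ e2) ∧
      ∀ e' ∈ inter a, Agree D2 e' e2 → e' ∈ G n) :
    ∃ r : Pc, StarAdd M r ∧ Pos r.1 ∧ (∀ e ∈ r.1, ∃ n, e ∈ G n) ∧
      ∀ n, ∃ K : Finset Om, ∀ e ∈ r.1, (∀ x ∈ K, x ∉ e) → ∃ m ≥ n, e ∈ G m := by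
  classical
  have dat : ∀ (n : ℕ) (K : Finset Om), Dat M (G n) K := fun n K =>
    (exists_dat M (G n) K (h n K)).some
  set st : ∀ n : ℕ, Dat M (G n) (KK n (hist dat n)) := fun n => dat n (KK n (hist dat n))
    with hst
  -- point-finiteness
  have hfin : ∀ x : Om, ∃ N : ℕ, ∀ n ≥ N, x ∈ (st n).D → x ∉ (st n).e2 := by
    intro x
    by_cases hx : ∃ m, x ∈ (st m).D
    · obtain ⟨m, hm⟩ := hx
      obtain ⟨i, hi⟩ := (st m).hen x hm
      refine ⟨max (m + 1) (i + 1), fun n hn _ => ?_⟩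
      refine (st n).hK x ?_
      rw [← hi]
      exact mem_KK n _ _ (mem_hist dat m n (by omega)) i (by omega)
    · push Not at hx
      exact ⟨0, fun n _ hn => absurd hn (hx n)⟩
  have hfinK : ∀ K' : Finset Om, ∃ N : ℕ, ∀ x ∈ K', x ∈ (st N).D → x ∉ (st N).e2 := by
    intro K'
    choose N hN using hfin
    refine ⟨K'.sup N, fun x hx => hN x _ (Finset.le_sup hx)⟩
  -- the set and the roots
  have hcode : ∀ e : Xc, ∀ n : ℕ, ∃ c : Code, roots (st n).a e ∪ (st n).D ⊆ Dc c := by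
    intro e n
    obtain ⟨c, hc⟩ := (st n).hc
    obtain ⟨d, hd⟩ := code_roots (st n).a e
    obtain ⟨b, hb1, hb2⟩ := code_union d c
    exact ⟨b, Set.union_subset (hd.trans hb1) (hc.trans hb2)⟩
  choose cd hcd using hcode
  let R : Set Xc := {e | ∃ n, e ∈ inter (st n).a ∧ Agree (st n).D e (st n).e2}
  let ρ : Xc → Code := fun e =>
    if he : ∃ n, e ∈ inter (st n).a ∧ Agree (st n).D e (st n).e2 then cd e he.choose else cd e 0
  refine ⟨(R, ρ), ?_, ?_, ?_, ?_⟩
  · refine starAdd_of_local M hM (R, ρ) ?_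
    intro e he
    have he' : ∃ n, e ∈ inter (st n).a ∧ Agree (st n).D e (st n).e2 := he
    refine ⟨(st he'.choose).a, (st he'.choose).e2, (st he'.choose).D, (st he'.choose).ha,
      he'.choose_spec.1, he'.choose_spec.2, ?_, ?_⟩
    · intro e' h1 h2
      exact ⟨he'.choose, h1, h2⟩
    · have hρ : ρ e = cd e he'.choose := dif_pos he'
      change _ ⊆ Dc (ρ e)
      rw [hρ]
      exact hcd e _
  · intro K'
    obtain ⟨n, hn⟩ := hfinK K'
    obtain ⟨e3, h1, h2⟩ := sep_avoid (st n).e2 (st n).D (st n).hD K' hn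
    obtain ⟨c, hc⟩ := (st n).hc
    obtain ⟨d, hd⟩ := code_finset K'
    obtain ⟨b, hb1, hb2⟩ := code_union c d
    have hfull := hM (st n).a (st n).ha (st n).e0 (st n).he0
    obtain ⟨e', h3, h4⟩ := hfull e3 (fun x hx =>
      (h1 x ((st n).hr hx)).trans ((st n).hag x hx)) b
    refine ⟨e', ⟨n, h3, ?_⟩, ?_⟩
    · intro x hx
      exact (h4 x (hb1 (hc hx))).trans (h1 x hx)
    · intro x hx hxe
      exact h2 x hx ((h4 x (hb2 (hd (by exact_mod_cast hx)))).mp hxe)
  · rintro e ⟨n, h1, h2⟩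
    exact ⟨n, (st n).hG e h1 h2⟩
  · intro n
    refine ⟨(Finset.range n).image (fun m => (st m).z), ?_⟩
    rintro e ⟨m, h1, h2⟩ h3
    refine ⟨m, ?_, (st m).hG e h1 h2⟩
    by_contra hlt
    have hlt' : m < n := by omega
    refine h3 (st m).z (Finset.mem_image.mpr ⟨m, Finset.mem_range.mpr hlt', rfl⟩) ?_
    exact (h2 _ (st m).hzD).mpr (st m).hz

end SBG9
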