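import Pool.Agent.Lib.SBG9.Defs

/-!
# Root sets: countable, closed, directed, bounded subsequences, compactness

Om = Nat -> Bool (product topology, compact, second countable, T2).
`Dj (j+1) z = union over n of Dj j (sp z n)`, where `sp z (n+1)` agrees with `sp z 0 = unp z 0`
below `n`.
-/

open Set Filter Topology

namespace SBG9

namespace RootsAux

/-- the point with given components -/
def mk (a : ℕ → Om) : Om := fun i => a i.unpair.1 i.unpair.2

theorem unp_mk (a : ℕ → Om) (n : ℕ) : unp (mk a) n = a n := by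
  funext i
  simp [unp, mk]

theorem sp_zero (z : Om) : sp z 0 = unp z 0 := rfl

theorem sp_succ (z : Om) (n i : ℕ) :
    sp z (n + 1) i = if i < n then unp z 0 i else unp z (n + 1) i := rfl

theorem cont_unp (n i : ℕ) : Continuous fun z : Om => unp z n i := by
  unfold unp
  exact continuous_apply _

theorem cont_sp (n : ℕ) : Continuous fun z : Om => sp z n := by
  refine continuous_pi fun i => ?_
  cases n with
  | zero => exact cont_unp 0 i
  | succ n =>
    simp only [sp_succ]
    split_ifs
    · exact cont_unp 0 i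
    · exact cont_unp (n + 1) i

theorem sub_sp {j : ℕ} {w z : Om} {n : ℕ} (h : sp w n = z) : Dj j z ⊆ Dj (j + 1) w := by
  intro x hx
  subst h
  exact mem_iUnion.2 ⟨n, hx⟩

theorem mem_succ {j : ℕ} {z x : Om} : x ∈ Dj (j + 1) z ↔ ∃ n, x ∈ Dj j (sp z n) := mem_iUnion

end RootsAux

open RootsAux

/-- Induction on `j`. -/
theorem Dj_countable (j : ℕ) (z : Om) : (Dj j z).Countable := by
  induction j generalizing z with
  | zero => exact countable_singleton z
  | succ j ih => exact countable_iUnion fun n => ih (sp z n)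

/-- Induction on `j`. For `j + 1`: let `x` not be in `Dj (j+1) z`. `x` is not in
`Dj j (sp z 0)`; by closedness of the graph for `j` there are `N` and an open `O` containing `x`
such that `x'` is not in `Dj j y` whenever `x'` is in `O` and `y` agrees with `sp z 0` below `N`.
If `z'` is close to `z`, then `unp z' 0` agrees with `unp z 0` below `N`, so for `n >= N`
`sp z' (n+1)` agrees with `sp z 0` below `N`. The finitely many remaining `n` are treated with
the continuity of `z' ↦ sp z' n`. -/
theorem Dj_graph_closed (j : ℕ) : IsClosed {p : Om × Om | p.2 ∈ Dj j p.1} := by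
  induction j with
  | zero =>
    have h : {p : Om × Om | p.2 ∈ Dj 0 p.1} = {p : Om × Om | p.2 = p.1} := by
      ext p
      exact mem_singleton_iff
    rw [h]
    exact isClosed_eq continuous_snd continuous_fst
  | succ j ih =>
    have hA : ∀ n, IsClosed {p : Om × Om | p.2 ∈ Dj j (sp p.1 n)} := fun n =>
      ih.preimage (((cont_sp n).comp continuous_fst).prodMk continuous_snd)
    rw [isClosed_iff_ultrafilter]
    intro p u hu hG
    by_cases hex : ∃ n, {q : Om × Om | q.2 ∈ Dj j (sp q.1 n)} ∈ u
    · obtain ⟨n, hn⟩ := hex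
      exact mem_succ.2 ⟨n, isClosed_iff_ultrafilter.1 (hA n) p u hu hn⟩
    · have hch : ∀ q : Om × Om, ∃ n : ℕ, q.2 ∈ Dj (j + 1) q.1 → q.2 ∈ Dj j (sp q.1 n) := by
        intro q
        by_cases hq : q.2 ∈ Dj (j + 1) q.1
        · obtain ⟨n, hn⟩ := mem_succ.1 hq
          exact ⟨n, fun _ => hn⟩
        · exact ⟨0, fun h => absurd h hq⟩
      choose N hN using hch
      have hbig : ∀ m : ℕ, ∀ᶠ q in (u : Filter (Om × Om)), m < N q := by
        intro m
        have h1 : ∀ n, ∀ᶠ q in (u : Filter (Om × Om)), N q ≠ n := by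
          intro n
          have h2 : {q : Om × Om | q.2 ∈ Dj j (sp q.1 n)}ᶜ ∈ u := by
            rw [Ultrafilter.compl_mem_iff_notMem]
            exact fun h => hex ⟨n, h⟩
          filter_upwards [h2, hG] with q hq1 hq2 hq3
          apply hq1
          have h3 := hN q hq2
          rw [hq3] at h3
          exact h3
        have h4 : ∀ᶠ q in (u : Filter (Om × Om)), ∀ n ∈ Finset.range (m + 1), N q ≠ n :=
          (Filter.eventually_all_finset _).2 fun n _ => h1 n
        filter_upwards [h4] with q hq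
        by_contra hcon
        exact hq (N q) (Finset.mem_range.2 (by omega)) rfl
      have hlim : Tendsto (fun q : Om × Om => (sp q.1 (N q), q.2)) (u : Filter (Om × Om))
          (𝓝 (sp p.1 0, p.2)) := by
        refine Tendsto.prodMk_nhds ?_ ?_
        · rw [tendsto_pi_nhds]
          intro i
          have h5 : Tendsto (fun q : Om × Om => unp q.1 0 i) (u : Filter (Om × Om))
              (𝓝 (unp p.1 0 i)) :=
            ((((cont_unp 0 i).comp continuous_fst).tendsto p).mono_left hu)
          refine h5.congr' ?_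
          filter_upwards [hbig (i + 1)] with q hq
          obtain ⟨k, hk⟩ : ∃ k, N q = k + 1 := ⟨N q - 1, by omega⟩
          rw [hk, sp_succ, if_pos (by omega)]
        · exact (continuous_snd.tendsto p).mono_left hu
      have h6 : (sp p.1 0, p.2) ∈ {p : Om × Om | p.2 ∈ Dj j p.1} := by
        refine ih.mem_of_tendsto hlim ?_
        filter_upwards [hG] with q hq
        exact hN q hq
      exact mem_succ.2 ⟨0, h6⟩

theorem Dj_closed (j : ℕ) (z : Om) : IsClosed (Dj j z) :=
  (Dj_graph_closed j).preimage (Continuous.prodMk_right z)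

/-- Take `w` with `unp w 0 = z`, `unp w 1 = z'`: then `sp w 0 = z`, `sp w 1 = z'`. -/
theorem Dj_union (j : ℕ) (z z' : Om) : ∃ w, Dj j z ⊆ Dj (j + 1) w ∧ Dj j z' ⊆ Dj (j + 1) w := by
  refine ⟨mk fun n => if n = 0 then z else z', sub_sp (n := 0) ?_, sub_sp (n := 1) ?_⟩
  · rw [sp_zero, unp_mk]
    simp
  · funext i
    rw [sp_succ, if_neg (Nat.not_lt_zero i), unp_mk]
    simp

/-- Compactness of `Om`: take a subsequence converging to some `y` such that the `n`-th term
agrees with `y` below `n`; take `w` with `unp w 0 = y`, `unp w (n+1) = z (φ n)`. -/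
theorem Dj_bound (j : ℕ) (z : ℕ → Om) :
    ∃ φ : ℕ → ℕ, StrictMono φ ∧ ∃ w, ∀ n, Dj j (z (φ n)) ⊆ Dj (j + 1) w := by
  obtain ⟨y, ψ, hψ, hlim⟩ := CompactSpace.tendsto_subseq z
  have hev : ∀ n : ℕ, ∀ᶠ k in atTop, ∀ i < n, z (ψ k) i = y i := by
    intro n
    have h1 : ∀ i, ∀ᶠ k in atTop, z (ψ k) i = y i := by
      intro i
      have h2 : Tendsto (fun k => z (ψ k) i) atTop (𝓝 (y i)) := (tendsto_pi_nhds.1 hlim) i
      rw [nhds_discrete, tendsto_pure] at h2
      exact h2
    have h3 : ∀ᶠ k in atTop, ∀ i ∈ Finset.range n, z (ψ k) i = y i :=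
      (Filter.eventually_all_finset _).2 fun i _ => h1 i
    filter_upwards [h3] with k hk i hi
    exact hk i (Finset.mem_range.2 hi)
  obtain ⟨χ, hχ, hP⟩ := Filter.extraction_forall_of_eventually hev
  refine ⟨fun n => ψ (χ n), hψ.comp hχ,
    mk fun n => if n = 0 then y else z (ψ (χ (n - 1))), fun n => sub_sp (n := n + 1) ?_⟩
  funext i
  rw [sp_succ, unp_mk, unp_mk]
  by_cases h1 : i < n
  · rw [if_pos h1, if_pos rfl]
    exact (hP n i h1).symm
  · rw [if_neg h1, if_neg (Nat.succ_ne_zero n), Nat.add_sub_cancel]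

/-- For `e'` in `C` the set of `z` with `Agree (Dj j z) e' e` is open: its complement is the
projection to the first coordinate of the compact set
`{(z, x) | x ∈ Dj j z} ∩ (univ ×ˢ symmDiff e e')`. Use compactness of `Om`. -/
theorem Dj_compact (C : Set Xc) (e : Xc) (j : ℕ)
    (h : ∀ z, ∃ e' ∈ C, Agree (Dj j z) e' e) :
    ∃ E : Set Xc, E.Finite ∧ E ⊆ C ∧ ∀ z, ∃ e' ∈ E, Agree (Dj j z) e' e := by
  have hopen : ∀ e' ∈ C, IsOpen {z : Om | Agree (Dj j z) e' e} := by
    intro e' _
    have hcl : IsClosed {x : Om | ¬ (x ∈ e' ↔ x ∈ e)} := by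
      have h1 : {x : Om | ¬ (x ∈ e' ↔ x ∈ e)} =
          ((e' : Set Om) ∩ (e : Set Om)ᶜ) ∪ ((e : Set Om) ∩ (e' : Set Om)ᶜ) := by
        ext x
        simp only [mem_ofPred_eq, mem_union, mem_inter_iff, mem_compl_iff, SetLike.mem_coe]
        tauto
      rw [h1]
      exact (e'.isClopen.1.inter e.isClopen.compl.1).union
        (e.isClopen.1.inter e'.isClopen.compl.1)
    have hK : IsCompact ({p : Om × Om | p.2 ∈ Dj j p.1} ∩
        (Prod.snd ⁻¹' {x : Om | ¬ (x ∈ e' ↔ x ∈ e)})) :=
      ((Dj_graph_closed j).inter (hcl.preimage continuous_snd)).isCompact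
    have himg := (hK.image continuous_fst).isClosed
    rw [← isClosed_compl_iff]
    convert himg using 1
    ext z
    simp only [mem_compl_iff, mem_ofPred_eq, Agree, mem_image, mem_inter_iff, mem_preimage,
      Prod.exists, exists_and_right, exists_eq_right]
    push Not
    constructor
    · rintro ⟨x, hx, h⟩
      exact ⟨x, hx, by tauto⟩
    · rintro ⟨x, hx, h⟩
      exact ⟨x, hx, by tauto⟩
  have hcov : (univ : Set Om) ⊆ ⋃ e' ∈ C, {z : Om | Agree (Dj j z) e' e} := by
    intro z _
    obtain ⟨e', he', hz⟩ := h z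
    exact mem_iUnion₂.2 ⟨e', he', hz⟩
  obtain ⟨E, hEC, hEf, hE⟩ := isCompact_univ.elim_finite_subcover_image hopen hcov
  refine ⟨E, hEf, hEC, fun z => ?_⟩
  obtain ⟨e', he', hz⟩ := mem_iUnion₂.1 (hE (mem_univ z))
  exact ⟨e', he', hz⟩

end SBG9
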