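import Pool.Agent.Lib.SBG9.Defs

/-!
# Perfect trees: uncountably many branches; at most continuum many trees
-/

open Set Filter Topology Cardinal

namespace SBG9

theorem pre_lengthA (x : Om) (n : ℕ) : (pre x n).length = n := by simp [pre]

theorem pre_prefixA (x : Om) {m n : ℕ} (h : m ≤ n) : pre x m <+: pre x n := by
  obtain ⟨k, rfl⟩ := Nat.exists_eq_add_of_le h
  unfold pre
  rw [List.range_add, List.map_append]
  exact List.prefix_append _ _

theorem exists_extA (p : PTree) (s : List Bool) (hs : s ∈ p.nodes) (y : Om) :
    ∃ t ∈ p.nodes, s <+: t ∧ s.length < t.length ∧ t ≠ pre y t.length := by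
  obtain ⟨t, ht, u, hu, hst, hsu, htu, hut⟩ := p.perf s hs
  have hlt : s.length < t.length := by
    rcases lt_or_eq_of_le hst.length_le with h | h
    · exact h
    · exact absurd (hst.eq_of_length h ▸ hsu) htu
  have hlu : s.length < u.length := by
    rcases lt_or_eq_of_le hsu.length_le with h | h
    · exact h
    · exact absurd (hsu.eq_of_length h ▸ hst) hut
  by_cases h : t = pre y t.length
  · refine ⟨u, hu, hsu, hlu, ?_⟩
    intro h'
    rcases le_total t.length u.length with h'' | h''
    · exact htu (by rw [h, h']; exact pre_prefixA y h'')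
    · exact hut (by rw [h, h']; exact pre_prefixA y h'')
  · exact ⟨t, ht, hst, hlt, h⟩

/-- A perfect tree has uncountably many branches (e.g. build an embedding of the full binary
tree, or: the body is a nonempty perfect set, `Perfect.exists_nat_bool_injection`; or diagonalise
against a countable enumeration of the branches). -/
theorem body_uncountable (p : PTree) : ¬ (body p).Countable := by
  intro hc
  obtain ⟨f, hf⟩ : ∃ f : ℕ → Om, body p ⊆ range f := by
    rcases (body p).eq_empty_or_nonempty with he | hne
    · exact ⟨fun _ _ => false, by rw [he]; exact empty_subset _⟩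
    · obtain ⟨f, hf⟩ := hc.exists_eq_range hne
      exact ⟨f, hf.le⟩
  choose! g hg1 hg2 hg3 hg4 using fun (s : List Bool) (hs : s ∈ p.nodes) (y : Om) =>
    exists_extA p s hs y
  let S : ℕ → List Bool := fun n => Nat.rec [] (fun k s => g s (f k)) n
  have hS0 : S 0 = [] := rfl
  have hSs : ∀ n, S (n + 1) = g (S n) (f n) := fun n => rfl
  have hmem : ∀ n, S n ∈ p.nodes := by
    intro n
    induction n with
    | zero => exact p.root
    | succ n ih => rw [hSs]; exact hg1 _ ih _
  have hstep : ∀ n, S n <+: S (n + 1) := fun n => by rw [hSs]; exact hg2 _ (hmem n) _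
  have hlen : ∀ n, n ≤ (S n).length := by
    intro n
    induction n with
    | zero => exact Nat.zero_le _
    | succ n ih =>
      have := hg3 _ (hmem n) (f n)
      rw [hSs]; omega
  have hmono : ∀ m n, m ≤ n → S m <+: S n := by
    intro m n h
    induction n, h using Nat.le_induction with
    | base => exact List.prefix_rfl
    | succ n _ ih => exact ih.trans (hstep n)
  let x : Om := fun i => (S (i + 1)).getD i false
  have hx : ∀ n i, i < (S n).length → x i = (S n).getD i false := by
    intro n i hi
    have hi' : i < (S (i + 1)).length := lt_of_lt_of_le (Nat.lt_succ_self i) (hlen (i + 1))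
    show (S (i + 1)).getD i false = _
    rw [List.getD_eq_getElem _ _ hi', List.getD_eq_getElem _ _ hi]
    rcases le_total (i + 1) n with h | h
    · exact (hmono _ _ h).getElem hi'
    · exact ((hmono _ _ h).getElem hi).symm
  have hpre : ∀ n, pre x (S n).length = S n := by
    intro n
    apply List.ext_getElem
    · exact pre_lengthA _ _
    · intro i h1 h2
      have : (pre x (S n).length)[i] = x i := by simp [pre]
      rw [this, hx n i h2, List.getD_eq_getElem _ _ h2]
  have hxb : x ∈ body p := by
    intro n
    exact p.down _ _ (by rw [← hpre n]; exact pre_prefixA x (hlen n)) (hmem n)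
  obtain ⟨n, hn⟩ := hf hxb
  apply hg4 _ (hmem n) (f n)
  rw [← hSs, hn]
  exact (hpre (n + 1)).symm

/-- There are at most continuum many trees: `p ↦ p.nodes` is an injection into
`Set (List Bool)`. -/
theorem mk_PTree_le : Cardinal.mk PTree ≤ Cardinal.continuum := by
  have hinj : Function.Injective (fun p : PTree => p.nodes) := by
    intro p q h
    cases p; cases q
    simp only at h
    subst h
    rfl
  calc Cardinal.mk PTree ≤ Cardinal.mk (Set (List Bool)) := Cardinal.mk_le_of_injective hinj
    _ = 2 ^ Cardinal.mk (List Bool) := Cardinal.mk_set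
    _ ≤ 2 ^ Cardinal.aleph0 :=
        Cardinal.power_le_power_left two_ne_zero (Cardinal.mk_le_aleph0)
    _ = Cardinal.continuum := Cardinal.two_power_aleph0

end SBG9
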