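import Pool.Agent.Lib.SBG9.Codes

/-!
# Adding a piece to a family with the star condition
-/

open Set Filter Topology

namespace SBG9

theorem inter_append (a b : List Pc) : inter (a ++ b) = inter a ∩ inter b := by
  ext e
  simp only [inter, Set.mem_ofPred_eq, Set.mem_inter_iff, List.mem_append]
  constructor
  · intro h
    exact ⟨fun r hr => h r (Or.inl hr), fun r hr => h r (Or.inr hr)⟩
  · rintro ⟨h1, h2⟩ r (hr | hr)
    · exact h1 r hr
    · exact h2 r hr

theorem roots_append (a b : List Pc) (e : Xc) : roots (a ++ b) e = roots a e ∪ roots b e := by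
  ext x
  simp only [roots, Set.mem_ofPred_eq, Set.mem_union, List.mem_append]
  constructor
  · rintro ⟨r, (hr | hr), hx⟩
    · exact Or.inl ⟨r, hr, hx⟩
    · exact Or.inr ⟨r, hr, hx⟩
  · rintro (⟨r, hr, hx⟩ | ⟨r, hr, hx⟩)
    · exact ⟨r, Or.inl hr, hx⟩
    · exact ⟨r, Or.inr hr, hx⟩

/-- Fullness is monotone in the set and in the root. -/
theorem Full.mono {C C' : Set Xc} {e : Xc} {D D' : Set Om} (h : Full C e D) (hC : C ⊆ C')
    (hD : D ⊆ D') : Full C' e D' := by
  intro e'' he'' c
  obtain ⟨e', h1, h2⟩ := h e'' (fun x hx => he'' x (hD hx)) c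
  exact ⟨e', hC h1, h2⟩

/-- For a list `b` of members of `insert r M`: if `r` does not occur, this is `hM`; otherwise
`inter b = r.1 ∩ inter b'` and `roots b e = Dc (r.2 e) ∪ roots b' e` with `b'` the sublist of the
members of `M` different from `r`. -/
theorem star_insert (M : Set Pc) (hM : Star M) (r : Pc) (h : StarAdd M r) :
    Star (insert r M) := by
  classical
  intro a ha e he
  by_cases hall : ∀ s ∈ a, s ∈ M
  · exact hM a hall e he
  · push Not at hall
    obtain ⟨s, hs, hsM⟩ := hall
    have hsr : s = r := by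
      rcases ha s hs with h1 | h1
      · exact h1
      · exact absurd h1 hsM
    have hra : r ∈ a := hsr ▸ hs
    set b : List Pc := a.filter (fun s => decide (s ∈ M)) with hb
    have hmem : ∀ s, s ∈ b ↔ s ∈ a ∧ s ∈ M := fun s => by
      rw [hb, List.mem_filter, decide_eq_true_iff]
    have hbM : ∀ s ∈ b, s ∈ M := fun s hs => ((hmem s).1 hs).2
    have her : e ∈ r.1 := he r hra
    have heb : e ∈ inter b := fun s hs => he s ((hmem s).1 hs).1
    refine Full.mono (h b hbM e her heb) ?_ ?_
    · rintro e' ⟨h1, h2⟩ s hs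
      rcases ha s hs with h3 | h3
      · rw [h3]; exact h1
      · exact h2 s ((hmem s).2 ⟨hs, h3⟩)
    · rintro x (hx | ⟨s, hs, hx⟩)
      · exact ⟨r, hra, hx⟩
      · exact ⟨s, ((hmem s).1 hs).1, hx⟩

/-- If every `e ∈ r.1` lies in a piece `inter a ∩ {e' | e' agrees with e2 on D2} ⊆ r.1` with
`roots a e ∪ D2 ⊆ Dc (r.2 e)`, then `r` can be added. Proof: for `b`, `e` as in `StarAdd`, `hM`
applied to `a ++ b` gives `Full (inter (a ++ b)) e (roots (a ++ b) e)`. Let `e''` agree with `e`
on `Dc (r.2 e) ∪ roots b e`, `c` a code; take a code `c'` with `Dc c ∪ Dc (r.2 e) ⊆ Dc c'`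
(`code_union`) and `e' ∈ inter a ∩ inter b` agreeing with `e''` on `Dc c'`; it agrees with `e''`,
`e` and `e2` on `D2`, so it is in `r.1`. -/
theorem starAdd_of_local (M : Set Pc) (hM : Star M) (r : Pc)
    (h : ∀ e ∈ r.1, ∃ (a : List Pc) (e2 : Xc) (D2 : Set Om), (∀ s ∈ a, s ∈ M) ∧ e ∈ inter a ∧
      Agree D2 e e2 ∧ (∀ e' ∈ inter a, Agree D2 e' e2 → e' ∈ r.1) ∧
      roots a e ∪ D2 ⊆ Dc (r.2 e)) : StarAdd M r := by
  intro b hb e her heb
  obtain ⟨a, e2, D2, ha, hea, hag, hin, hsub⟩ := h e her
  have hfull : Full (inter (a ++ b)) e (roots (a ++ b) e) := by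
    refine hM (a ++ b) ?_ e ?_
    · intro s hs
      rcases List.mem_append.1 hs with h1 | h1
      · exact ha s h1
      · exact hb s h1
    · rw [inter_append]
      exact ⟨hea, heb⟩
  intro e'' he'' c
  obtain ⟨c', h1, h2⟩ := code_union c (r.2 e)
  obtain ⟨e', he', hag'⟩ := hfull e'' (fun x hx => he'' x (by
    rw [roots_append] at hx
    rcases hx with hx | hx
    · exact Or.inl (hsub (Or.inl hx))
    · exact Or.inr hx)) c'
  rw [inter_append] at he'
  refine ⟨e', ⟨hin e' he'.1 ?_, he'.2⟩, fun x hx => hag' x (h1 hx)⟩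
  intro x hx
  have hx' : x ∈ Dc (r.2 e) := hsub (Or.inr hx)
  rw [hag' x (h2 hx'), he'' x (Or.inl hx')]
  exact hag x hx

/-- If `R' = r'.1` is positive and almost contained in every member of a family with the star
condition, the family is a condition: for a finite list `a` of members there is a finite `K` such
that every `e ∈ r'.1` avoiding `K` is in `inter a`. -/
theorem cond_of_almost (M : Set Pc) (hM : Star M) (R : Set Xc) (hR : Pos R)
    (h : AlmostIn R M) : Cond M := by
  classical
  have key : ∀ a : List Pc, (∀ r ∈ a, r ∈ M) →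
      ∃ K : Finset Om, ∀ e ∈ R, (∀ x ∈ K, x ∉ e) → e ∈ inter a := by
    intro a
    induction a with
    | nil => exact fun _ => ⟨∅, fun e _ _ s hs => absurd hs List.not_mem_nil⟩
    | cons r a ih =>
      intro ha
      obtain ⟨K, hK⟩ := ih fun s hs => ha s (List.mem_cons_of_mem _ hs)
      obtain ⟨K', hK'⟩ := h r (ha r List.mem_cons_self)
      refine ⟨K ∪ K', fun e he hx s hs => ?_⟩
      rcases List.mem_cons.1 hs with h1 | h1
      · rw [h1]
        exact hK' e he fun x hx' => hx x (Finset.mem_union_right _ hx')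
      · exact hK e he (fun x hx' => hx x (Finset.mem_union_left _ hx')) s h1
  intro a ha
  refine ⟨hM a ha, ?_⟩
  intro K'
  obtain ⟨K, hK⟩ := key a ha
  obtain ⟨e, he, hx⟩ := hR (K ∪ K')
  exact ⟨e, hK e he fun x hx' => hx x (Finset.mem_union_left _ hx'),
    fun x hx' => hx x (Finset.mem_union_right _ hx')⟩

end SBG9
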